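import Pool.Agent.MP_6bdc24_co.Step2

/-!
The hexagonal graph on the torus: combinatorial properties.
-/

namespace Pool.Agent.MP_6bdc24_co

/-- the group indexing the vertices -/
abbrev Gam (k : ℕ) : Type := ZMod k × ZMod k

/-- the three edge directions -/
def dd (k : ℕ) : Fin 3 → Gam k := ![(0, 0), (0, -1), (1, 0)]

/-- The hexagonal graph on the torus: `inl g` is adjacent to `inr (g + dd i)`. -/
def baseG (k : ℕ) : SimpleGraph (Gam k ⊕ Gam k) where
  Adj p q := match p, q with
    | .inl g, .inr h => ∃ i, h = g + dd k i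
    | .inr h, .inl g => ∃ i, h = g + dd k i
    | .inl _, .inl _ => False
    | .inr _, .inr _ => False
  symm := ⟨by
    intro p q h
    rcases p with y | i <;> rcases q with z | j <;> exact h⟩
  loopless := ⟨by
    intro p h
    rcases p with y | i <;> exact h⟩

variable {k : ℕ}

lemma nz {n : ℕ} (h0 : 0 < n) (h1 : n < k) : (n : ZMod k) ≠ 0 := by
  intro h
  rw [ZMod.natCast_eq_zero_iff] at h
  exact absurd (Nat.le_of_dvd h0 h) (by omega)

lemma one_nz (hk : 4 ≤ k) : (1 : ZMod k) ≠ 0 := by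
  have := nz (k := k) (n := 1) (by omega) (by omega)
  simpa using this

lemma dd_injective (hk : 4 ≤ k) : Function.Injective (dd k) := by
  have h1 := one_nz hk
  intro i j hij
  fin_cases i <;> fin_cases j <;> simp [dd, Prod.ext_iff] at hij ⊢
  · exact h1 hij
  · exact h1 hij.symm
  · exact h1 hij
  · exact h1 hij.1.symm
  · exact h1 hij
  · exact h1 hij

lemma base_adj_lr {g h : Gam k} : (baseG k).Adj (.inl g) (.inr h) ↔ ∃ i, h = g + dd k i := Iff.rfl
lemma base_adj_rl {g h : Gam k} : (baseG k).Adj (.inr h) (.inl g) ↔ ∃ i, h = g + dd k i := Iff.rfl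

lemma base_adj (g : Gam k) (i : Fin 3) : (baseG k).Adj (.inl g) (.inr (g + dd k i)) := ⟨i, rfl⟩

lemma base_cubic (hk : 4 ≤ k) (p : Gam k ⊕ Gam k) : ((baseG k).neighborSet p).ncard = 3 := by
  rcases p with g | h
  · have h1 : (baseG k).neighborSet (.inl g) =
        (fun i : Fin 3 => (Sum.inr (g + dd k i) : Gam k ⊕ Gam k)) '' Set.univ := by
      ext q
      rcases q with q | q
      · constructor
        · intro hq; exact hq.elim
        · rintro ⟨i, -, hi⟩; simp at hi
      · constructor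
        · rintro ⟨i, hi⟩
          exact ⟨i, trivial, by rw [hi]⟩
        · rintro ⟨i, -, hi⟩
          exact ⟨i, (Sum.inr_injective hi).symm⟩
    rw [h1, Set.ncard_image_of_injective, Set.ncard_univ, Nat.card_fin]
    intro i j hij
    exact dd_injective hk (add_left_cancel (Sum.inr_injective hij))
  · have h1 : (baseG k).neighborSet (.inr h) =
        (fun i : Fin 3 => (Sum.inl (h - dd k i) : Gam k ⊕ Gam k)) '' Set.univ := by
      ext q
      rcases q with q | q
      · constructor
        · rintro ⟨i, hi⟩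
          refine ⟨i, trivial, ?_⟩
          show Sum.inl (h - dd k i) = _
          rw [hi, add_sub_cancel_right]
        · rintro ⟨i, -, hi⟩
          refine ⟨i, ?_⟩
          have := Sum.inl_injective hi
          rw [← this, sub_add_cancel]
      · constructor
        · intro hq; exact hq.elim
        · rintro ⟨i, -, hi⟩; simp at hi
    rw [h1, Set.ncard_image_of_injective, Set.ncard_univ, Nat.card_fin]
    intro i j hij
    have := Sum.inl_injective hij
    exact dd_injective hk (sub_right_injective this)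

/-- the neighbours of the special vertex `inl 0` -/
def baseX (k : ℕ) : Fin 3 → Gam k ⊕ Gam k := ![.inr (dd k 1), .inr (dd k 0), .inr (dd k 2)]

lemma baseConfig (hk : 4 ≤ k) : Config (baseG k) (.inl 0) (baseX k) where
  inj := by
    have h := dd_injective hk
    intro i j hij
    fin_cases i <;> fin_cases j <;> simp [baseX] at hij ⊢
    · exact absurd (h hij) (by decide)
    · exact absurd (h hij) (by decide)
    · exact absurd (h hij) (by decide)
    · exact absurd (h hij) (by decide)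
    · exact absurd (h hij) (by decide)
    · exact absurd (h hij) (by decide)
  adj := by
    intro y
    rcases y with g | h
    · constructor
      · intro hh; exact hh.elim
      · rintro ⟨i, hi⟩
        fin_cases i <;> simp [baseX] at hi
    · rw [base_adj_lr]
      simp only [zero_add]
      constructor
      · rintro ⟨i, rfl⟩
        fin_cases i
        · exact ⟨1, rfl⟩
        · exact ⟨0, rfl⟩
        · exact ⟨2, rfl⟩
      · rintro ⟨i, hi⟩
        fin_cases i
        · exact ⟨1, Sum.inr_injective hi⟩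
        · exact ⟨0, Sum.inr_injective hi⟩
        · exact ⟨2, Sum.inr_injective hi⟩
  cubic := base_cubic hk

/-! ### Edge connectivity -/

/-- the edge of type `i` at `inl g` -/
def ee (g : Gam k) (i : Fin 3) : Sym2 (Gam k ⊕ Gam k) := s(.inl g, .inr (g + dd k i))

lemma ee_inj (hk : 4 ≤ k) {g g' : Gam k} {i i' : Fin 3} (h : ee g i = ee g' i') :
    g = g' ∧ i = i' := by
  unfold ee at h
  rw [Sym2.eq_iff] at h
  rcases h with ⟨h1, h2⟩ | ⟨h1, h2⟩
  · have h3 := Sum.inl_injective h1
    subst h3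
    exact ⟨rfl, dd_injective hk (add_left_cancel (Sum.inr_injective h2))⟩
  · simp at h1

lemma adj_of_notMem {F : Set (Sym2 (Gam k ⊕ Gam k))} {g : Gam k} {i : Fin 3} (h : ee g i ∉ F) :
    ((baseG k).deleteEdges F).Adj (.inl g) (.inr (g + dd k i)) := by
  rw [SimpleGraph.deleteEdges_adj]
  exact ⟨base_adj g i, h⟩

/-- going around a cycle which uses the edge types `i` and `j` -/
lemma around (hk : 0 < k) (F : Set (Sym2 (Gam k ⊕ Gam k))) (g : Gam k) (i j : Fin 3)
    (h1 : ∀ n : ℕ, ee (g + n • (dd k i - dd k j)) j ∉ F)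
    (h2 : ∀ n : ℕ, n • (dd k i - dd k j) ≠ 0 → ee (g + n • (dd k i - dd k j)) i ∉ F) :
    ((baseG k).deleteEdges F).Reachable (.inl g) (.inr (g + dd k i)) := by
  have key : ∀ n : ℕ, ((baseG k).deleteEdges F).Reachable (.inr (g + dd k i)) (.inl g) ∨
      ((baseG k).deleteEdges F).Reachable (.inr (g + dd k i))
        (.inl (g + (n + 1) • (dd k i - dd k j))) := by
    intro n
    induction n with
    | zero =>
      right
      have h3 := adj_of_notMem (h1 1)
      rw [one_smul] at h3
      have h4 : g + (dd k i - dd k j) + dd k j = g + dd k i := by abel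
      rw [h4] at h3
      rw [zero_add, one_smul]
      exact h3.symm.reachable
    | succ n ih =>
      rcases ih with ih | ih
      · left; exact ih
      · by_cases h0 : (n + 1) • (dd k i - dd k j) = 0
        · left
          rw [h0, add_zero] at ih
          exact ih
        · right
          have h3 := adj_of_notMem (h2 (n + 1) h0)
          have h4 := adj_of_notMem (h1 (n + 1 + 1))
          have h5 : g + (n + 1 + 1) • (dd k i - dd k j) + dd k j
              = g + (n + 1) • (dd k i - dd k j) + dd k i := by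
            rw [succ_nsmul (dd k i - dd k j) (n + 1)]
            abel
          rw [h5] at h4
          exact ih.trans (h3.reachable.trans h4.symm.reachable)
  rcases key (k - 1) with h | h
  · exact h.symm
  · have h6 : (k - 1 + 1) • (dd k i - dd k j) = 0 := by
      rw [Nat.sub_add_cancel hk]
      ext <;> simp
    rw [h6, add_zero] at h
    exact h.symm

/-- differences of two pairs of directions generate subgroups with trivial intersection -/
lemma dd_indep {i j l : Fin 3} (hij : i ≠ j) (hil : i ≠ l) (hjl : j ≠ l) {n m : ℕ}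
    (h : n • (dd k i - dd k j) = m • (dd k i - dd k l)) : n • (dd k i - dd k j) = 0 := by
  fin_cases i <;> fin_cases j <;> fin_cases l <;>
    simp [dd, Prod.ext_iff] at hij hil hjl h ⊢
  · exact h.2
  · exact h.1
  · exact h.2.trans h.1
  · exact h.1
  · exact h.1.trans h.2.symm
  · exact h.2

lemma base_reach (hk : 4 ≤ k) (F : Set (Sym2 (Gam k ⊕ Gam k))) (hF : F.encard < (3 : ℕ))
    (g : Gam k) (i : Fin 3) :
    ((baseG k).deleteEdges F).Reachable (.inl g) (.inr (g + dd k i)) := by
  by_cases he : ee g i ∉ F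
  · exact (adj_of_notMem he).reachable
  push Not at he
  obtain ⟨j, l, hjl, hji, hli, -⟩ := exists_others i
  -- at most one further element of `F`
  have huniq : ∀ f f', f ∈ F → f' ∈ F → f ≠ ee g i → f' ≠ ee g i → f = f' := by
    intro f f' hf hf' hfe hfe'
    by_contra hne
    have hsub : ({ee g i, f, f'} : Set (Sym2 (Gam k ⊕ Gam k))) ⊆ F := by
      rintro a (rfl | rfl | rfl)
      · exact he
      · exact hf
      · exact hf'
    have h1 := Set.encard_le_encard hsub
    rw [Set.encard_insert_of_notMem, Set.encard_pair hne] at h1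
    · have h2 := lt_of_le_of_lt h1 hF
      norm_num at h2
    · rintro (h2 | h2)
      · exact hfe h2.symm
      · exact hfe' h2.symm
  by_cases hP : (∀ n : ℕ, ee (g + n • (dd k i - dd k j)) j ∉ F) ∧
      (∀ n : ℕ, n • (dd k i - dd k j) ≠ 0 → ee (g + n • (dd k i - dd k j)) i ∉ F)
  · exact around (by omega) F g i j hP.1 hP.2
  by_cases hQ : (∀ n : ℕ, ee (g + n • (dd k i - dd k l)) l ∉ F) ∧
      (∀ n : ℕ, n • (dd k i - dd k l) ≠ 0 → ee (g + n • (dd k i - dd k l)) i ∉ F)
  · exact around (by omega) F g i l hQ.1 hQ.2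
  exfalso
  -- elements of `F` on the two cycles
  have hPf : ∃ (n : ℕ) (t : Fin 3), ee (g + n • (dd k i - dd k j)) t ∈ F ∧
      (t = j ∨ (t = i ∧ n • (dd k i - dd k j) ≠ 0)) := by
    by_contra hcon
    apply hP
    constructor
    · intro n hn
      exact hcon ⟨n, j, hn, Or.inl rfl⟩
    · intro n h0 hn
      exact hcon ⟨n, i, hn, Or.inr ⟨rfl, h0⟩⟩
  have hQf : ∃ (n : ℕ) (t : Fin 3), ee (g + n • (dd k i - dd k l)) t ∈ F ∧
      (t = l ∨ (t = i ∧ n • (dd k i - dd k l) ≠ 0)) := by
    by_contra hcon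
    apply hQ
    constructor
    · intro n hn
      exact hcon ⟨n, l, hn, Or.inl rfl⟩
    · intro n h0 hn
      exact hcon ⟨n, i, hn, Or.inr ⟨rfl, h0⟩⟩
  obtain ⟨n, t, hn, ht⟩ := hPf
  obtain ⟨m, u, hm, hu⟩ := hQf
  have h1 : ee (g + n • (dd k i - dd k j)) t ≠ ee g i := by
    intro h
    obtain ⟨h2, h3⟩ := ee_inj hk h
    rcases ht with ht | ⟨-, ht⟩
    · exact hji (ht.symm.trans h3)
    · exact ht (by simpa using h2)
  have h1' : ee (g + m • (dd k i - dd k l)) u ≠ ee g i := by
    intro h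
    obtain ⟨h2, h3⟩ := ee_inj hk h
    rcases hu with hu | ⟨-, hu⟩
    · exact hli (hu.symm.trans h3)
    · exact hu (by simpa using h2)
  obtain ⟨h4, h5⟩ := ee_inj hk (huniq _ _ hn hm h1 h1')
  have h6 := add_left_cancel h4
  rcases ht with ht | ⟨ht, ht0⟩
  · rcases hu with hu | ⟨hu, -⟩
    · exact hjl (ht.symm.trans (h5.trans hu))
    · exact hji (ht.symm.trans (h5.trans hu))
  · exact ht0 (dd_indep hji.symm hli.symm hjl h6)

lemma base_preconnected (hk : 0 < k) : (baseG k).Preconnected := by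
  have : NeZero k := ⟨by omega⟩
  have hE : ∀ n m : ℕ, (baseG k).Reachable (.inl 0) (.inl ((n : ZMod k), (m : ZMod k))) := by
    have h1 : ∀ m : ℕ, (baseG k).Reachable (.inl 0) (.inl ((0 : ZMod k), (m : ZMod k))) := by
      intro m
      induction m with
      | zero =>
        have : ((0 : ZMod k), ((0 : ℕ) : ZMod k)) = (0 : Gam k) := by simp
        rw [this]
      | succ m ih =>
        refine ih.trans ?_
        have a1 := base_adj ((0 : ZMod k), (m : ZMod k)) 0
        have a2 := base_adj ((0 : ZMod k), ((m + 1 : ℕ) : ZMod k)) 1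
        have h3 : ((0 : ZMod k), ((m + 1 : ℕ) : ZMod k)) + dd k 1
            = ((0 : ZMod k), (m : ZMod k)) + dd k 0 := by
          simp [dd]
        rw [h3] at a2
        exact a1.reachable.trans a2.symm.reachable
    intro n m
    induction n with
    | zero => simpa using h1 m
    | succ n ih =>
      refine ih.trans ?_
      have a1 := base_adj ((n : ZMod k), (m : ZMod k)) 2
      have a2 := base_adj (((n + 1 : ℕ) : ZMod k), (m : ZMod k)) 0
      have h3 : (((n + 1 : ℕ) : ZMod k), (m : ZMod k)) + dd k 0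
          = ((n : ZMod k), (m : ZMod k)) + dd k 2 := by
        simp [dd]
      rw [h3] at a2
      exact a1.reachable.trans a2.symm.reachable
  have hE' : ∀ g : Gam k, (baseG k).Reachable (.inl 0) (.inl g) := by
    intro g
    have h1 := hE g.1.val g.2.val
    rw [ZMod.natCast_zmod_val, ZMod.natCast_zmod_val] at h1
    exact h1
  have hall : ∀ p, (baseG k).Reachable (.inl 0) p := by
    rintro (g | g)
    · exact hE' g
    · have a1 := base_adj g 0
      have h3 : g + dd k 0 = g := by simp [dd]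
      rw [h3] at a1
      exact (hE' g).trans a1.reachable
  intro p q
  exact (hall p).symm.trans (hall q)

lemma base_edgeConnected (hk : 4 ≤ k) : (baseG k).IsEdgeConnected 3 := by
  intro p q F hF
  refine reachable_transfer (G := baseG k) id ?_ (base_preconnected (by omega) p q)
  intro y z hyz
  rcases y with g | h <;> rcases z with g' | h'
  · exact hyz.elim
  · obtain ⟨i, rfl⟩ := hyz
    exact base_reach hk F hF g i
  · obtain ⟨i, rfl⟩ := hyz
    exact (base_reach hk F hF g' i).symm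
  · exact hyz.elim

/-! ### A `K_{3,3}` minor -/

/-- vertical segment -/
def vert (k : ℕ) (i s : ZMod k) (L : ℕ) : Set (Gam k) := {g | g.1 = i ∧ ∃ n ≤ L, g.2 = s + (n : ℕ)}

/-- horizontal segment -/
def horiz (k : ℕ) (j s : ZMod k) (L : ℕ) : Set (Gam k) := {g | g.2 = j ∧ ∃ n ≤ L, g.1 = s + (n : ℕ)}

/-- both vertices over each element -/
def both (S : Set (Gam k)) : Set (Gam k ⊕ Gam k) :=
  {p | (∃ g ∈ S, p = .inl g) ∨ (∃ g ∈ S, p = .inr g)}

lemma both_inl {S : Set (Gam k)} {g : Gam k} (h : g ∈ S) : (Sum.inl g : Gam k ⊕ Gam k) ∈ both S :=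
  Or.inl ⟨g, h, rfl⟩
lemma both_inr {S : Set (Gam k)} {g : Gam k} (h : g ∈ S) : (Sum.inr g : Gam k ⊕ Gam k) ∈ both S :=
  Or.inr ⟨g, h, rfl⟩

lemma both_disjoint {S T : Set (Gam k)} (h : Disjoint S T) : Disjoint (both S) (both T) := by
  rw [Set.disjoint_left] at h ⊢
  rintro p (⟨g, hg, rfl⟩ | ⟨g, hg, rfl⟩) (⟨g', hg', h'⟩ | ⟨g', hg', h'⟩)
  · rw [Sum.inl_injective h'] at hg; exact h hg hg'
  · simp at h'
  · simp at h'
  · rw [Sum.inr_injective h'] at hg; exact h hg hg'

lemma both_connected {S : Set (Gam k)} (L : ℕ) (f : ℕ → Gam k) (hf : ∀ n ≤ L, f n ∈ S)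
    (hS : ∀ g ∈ S, ∃ n ≤ L, g = f n)
    (hadj : ∀ n < L, (baseG k).Adj (.inr (f n)) (.inl (f (n + 1))) ∨
      (baseG k).Adj (.inl (f n)) (.inr (f (n + 1)))) :
    ((baseG k).induce (both S)).Connected := by
  have hEO : ∀ g (hg : g ∈ S), ((baseG k).induce (both S)).Reachable
      ⟨.inl g, both_inl hg⟩ ⟨.inr g, both_inr hg⟩ := by
    intro g hg
    apply SimpleGraph.Adj.reachable
    show (baseG k).Adj (.inl g) (.inr g)
    exact ⟨0, by simp [dd]⟩
  have hf0 : f 0 ∈ S := hf 0 (Nat.zero_le _)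
  have key : ∀ n (hn : n ≤ L), ((baseG k).induce (both S)).Reachable
      ⟨.inl (f 0), both_inl hf0⟩ ⟨.inl (f n), both_inl (hf n hn)⟩ := by
    intro n
    induction n with
    | zero => intro _; exact SimpleGraph.Reachable.refl _
    | succ n ih =>
      intro hn
      have ih' := ih (by omega)
      rcases hadj n (by omega) with h | h
      · refine ih'.trans ((hEO _ (hf n (by omega))).trans (SimpleGraph.Adj.reachable ?_))
        exact h
      · refine ih'.trans (SimpleGraph.Reachable.trans (SimpleGraph.Adj.reachable ?_)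
          (hEO _ (hf (n + 1) hn)).symm)
        exact h
  have hall : ∀ p : both S, ((baseG k).induce (both S)).Reachable ⟨.inl (f 0), both_inl hf0⟩ p := by
    rintro ⟨p, (⟨g, hg, rfl⟩ | ⟨g, hg, rfl⟩)⟩
    · obtain ⟨n, hn, rfl⟩ := hS g hg
      exact key n hn
    · obtain ⟨n, hn, rfl⟩ := hS g hg
      exact (key n hn).trans (hEO _ hg)
  have : Nonempty (both S) := ⟨⟨.inl (f 0), both_inl hf0⟩⟩
  refine { preconnected := ?_, nonempty := this }
  intro p q
  exact (hall p).symm.trans (hall q)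

lemma vert_connected (i s : ZMod k) (L : ℕ) : ((baseG k).induce (both (vert k i s L))).Connected := by
  refine both_connected L (fun n => (i, s + (n : ℕ))) ?_ ?_ ?_
  · intro n hn
    exact ⟨rfl, n, hn, rfl⟩
  · rintro ⟨a, b⟩ ⟨h1, n, hn, h2⟩
    refine ⟨n, hn, ?_⟩
    simp only at h1 h2
    rw [h1, h2]
  · intro n _
    left
    refine ⟨1, ?_⟩
    ext <;> simp [dd]
    ring

lemma horiz_connected (j s : ZMod k) (L : ℕ) : ((baseG k).induce (both (horiz k j s L))).Connected := by
  refine both_connected L (fun n => (s + (n : ℕ), j)) ?_ ?_ ?_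
  · intro n hn
    exact ⟨rfl, n, hn, rfl⟩
  · rintro ⟨a, b⟩ ⟨h1, n, hn, h2⟩
    refine ⟨n, hn, ?_⟩
    simp only at h1 h2
    rw [h1, h2]
  · intro n _
    right
    refine ⟨2, ?_⟩
    ext <;> simp [dd]
    ring

lemma nat_ne {a b : ℕ} (h1 : a < b) (h2 : b < a + k) : (a : ZMod k) ≠ (b : ZMod k) := by
  intro h
  have h3 : ((b - a : ℕ) : ZMod k) = 0 := by
    rw [Nat.cast_sub h1.le, h, sub_self]
  exact nz (by omega) (by omega) h3

/-- the branch sets -/
def branch (k : ℕ) : Fin 3 ⊕ Fin 3 → Set (Gam k)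
  | .inl 0 => vert k 1 1 2
  | .inl 1 => vert k 2 1 1
  | .inl 2 => vert k 3 3 (k - 3)
  | .inr 0 => vert k 2 3 0
  | .inr 1 => horiz k 1 3 (k - 3)
  | .inr 2 => horiz k 2 3 (k - 3)

lemma vert_vert_disj {i i' s s' : ZMod k} {L L' : ℕ} (h : i ≠ i') :
    Disjoint (vert k i s L) (vert k i' s' L') := by
  rw [Set.disjoint_left]
  rintro g ⟨h1, -⟩ ⟨h2, -⟩
  exact h (h1.symm.trans h2)

lemma horiz_horiz_disj {i i' s s' : ZMod k} {L L' : ℕ} (h : i ≠ i') :
    Disjoint (horiz k i s L) (horiz k i' s' L') := by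
  rw [Set.disjoint_left]
  rintro g ⟨h1, -⟩ ⟨h2, -⟩
  exact h (h1.symm.trans h2)

lemma three_add_ne {m a : ℕ} (hk : 4 ≤ k) (hm : m ≤ k - 3) (ha : a = 1 ∨ a = 2) :
    (3 : ZMod k) + (m : ℕ) ≠ (a : ℕ) := by
  intro h
  have h1 : ((a : ℕ) : ZMod k) = ((3 + m : ℕ) : ZMod k) := by
    rw [← h]; push_cast; rfl
  exact nat_ne (by omega) (by omega) h1

lemma branch_disjoint (hk : 4 ≤ k) (w w' : Fin 3 ⊕ Fin 3) (h : w ≠ w') :
    Disjoint (branch k w) (branch k w') := by
  have h12 : (1 : ZMod k) ≠ 2 := by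
    have := nat_ne (k := k) (a := 1) (b := 2) (by omega) (by omega)
    simpa using this
  have h13 : (1 : ZMod k) ≠ 3 := by
    have := nat_ne (k := k) (a := 1) (b := 3) (by omega) (by omega)
    simpa using this
  have h23 : (2 : ZMod k) ≠ 3 := by
    have := nat_ne (k := k) (a := 2) (b := 3) (by omega) (by omega)
    simpa using this
  have h3m1 : ∀ m ≤ k - 3, (3 : ZMod k) + (m : ℕ) ≠ 1 := by
    intro m hm
    have := three_add_ne (a := 1) hk hm (Or.inl rfl)
    simpa using this
  have h3m2 : ∀ m ≤ k - 3, (3 : ZMod k) + (m : ℕ) ≠ 2 := by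
    intro m hm
    have := three_add_ne (a := 2) hk hm (Or.inr rfl)
    simpa using this
  -- the pairs
  have d01 : Disjoint (vert k 1 1 2) (vert k 2 1 1) := vert_vert_disj h12
  have d02 : Disjoint (vert k 1 1 2) (vert k 3 3 (k - 3)) := vert_vert_disj h13
  have d03 : Disjoint (vert k 1 1 2) (vert k 2 3 0) := vert_vert_disj h12
  have d12 : Disjoint (vert k 2 1 1) (vert k 3 3 (k - 3)) := vert_vert_disj h23
  have d23 : Disjoint (vert k 3 3 (k - 3)) (vert k 2 3 0) := vert_vert_disj h23.symm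
  have d45 : Disjoint (horiz k 1 3 (k - 3)) (horiz k 2 3 (k - 3)) := horiz_horiz_disj h12
  have d13 : Disjoint (vert k 2 1 1) (vert k 2 3 0) := by
    rw [Set.disjoint_left]
    rintro g ⟨-, n, hn, h1⟩ ⟨-, m, hm, h2⟩
    rw [h1] at h2
    have hm0 : m = 0 := by omega
    subst hm0
    have hn' : n = 0 ∨ n = 1 := by omega
    rcases hn' with rfl | rfl
    · apply h13; simpa using h2
    · apply h23
      have h3 : (1 : ZMod k) + 1 = 3 := by simpa using h2
      rw [← h3]; norm_num
  have dvh : ∀ (i : ZMod k) (s j : ZMod k) (L : ℕ), (∀ m ≤ k - 3, (3 : ZMod k) + (m : ℕ) ≠ i) →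
      Disjoint (vert k i s L) (horiz k j 3 (k - 3)) := by
    intro i s j L hne
    rw [Set.disjoint_left]
    rintro g ⟨h1, -⟩ ⟨-, m, hm, h2⟩
    exact hne m hm (h2.symm.trans h1)
  have dvh' : ∀ (i j s : ZMod k) (L : ℕ), (∀ m ≤ k - 3, (3 : ZMod k) + (m : ℕ) ≠ j) →
      Disjoint (vert k i 3 (k - 3)) (horiz k j s L) := by
    intro i j s L hne
    rw [Set.disjoint_left]
    rintro g ⟨-, m, hm, h2⟩ ⟨h1, -⟩
    exact hne m hm (h2.symm.trans h1)
  have d04 := dvh 1 1 1 2 h3m1
  have d05 := dvh 1 1 2 2 h3m1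
  have d14 := dvh 2 1 1 1 h3m2
  have d15 := dvh 2 1 2 1 h3m2
  have d34 := dvh 2 3 1 0 h3m2
  have d35 := dvh 2 3 2 0 h3m2
  have d24 := dvh' 3 1 3 (k - 3) h3m1
  have d25 := dvh' 3 2 3 (k - 3) h3m2
  rcases w with w | w <;> rcases w' with w' | w' <;> fin_cases w <;> fin_cases w'
  all_goals first
    | exact absurd rfl h
    | exact d01
    | exact d02
    | exact d03
    | exact d04
    | exact d05
    | exact d12
    | exact d13
    | exact d14
    | exact d15
    | exact d23
    | exact d24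
    | exact d25
    | exact d34
    | exact d35
    | exact d45
    | exact d01.symm
    | exact d02.symm
    | exact d03.symm
    | exact d04.symm
    | exact d05.symm
    | exact d12.symm
    | exact d13.symm
    | exact d14.symm
    | exact d15.symm
    | exact d23.symm
    | exact d24.symm
    | exact d25.symm
    | exact d34.symm
    | exact d35.symm
    | exact d45.symm

lemma zero_notMem_branch (hk : 4 ≤ k) (w : Fin 3 ⊕ Fin 3) : (0 : Gam k) ∉ branch k w := by
  have h01 : (0 : ZMod k) ≠ 1 := by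
    have := nat_ne (k := k) (a := 0) (b := 1) (by omega) (by omega)
    simpa using this
  have h02 : (0 : ZMod k) ≠ 2 := by
    have := nat_ne (k := k) (a := 0) (b := 2) (by omega) (by omega)
    simpa using this
  have h03 : (0 : ZMod k) ≠ 3 := by
    have := nat_ne (k := k) (a := 0) (b := 3) (by omega) (by omega)
    simpa using this
  rcases w with w | w <;> fin_cases w
  · rintro ⟨h, -⟩; exact h01 h
  · rintro ⟨h, -⟩; exact h02 h
  · rintro ⟨h, -⟩; exact h03 h
  · rintro ⟨h, -⟩; exact h02 h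
  · rintro ⟨h, -⟩; exact h01 h
  · rintro ⟨h, -⟩; exact h02 h

lemma branch_adj (hk : 4 ≤ k) (i j : Fin 3) :
    ∃ a ∈ both (branch k (.inl i)), ∃ b ∈ both (branch k (.inr j)), (baseG k).Adj a b := by
  have hlast : (3 : ZMod k) + ((k - 3 : ℕ) : ZMod k) = 0 := by
    have h1 : ((3 + (k - 3) : ℕ) : ZMod k) = 0 := by
      have h2 : 3 + (k - 3) = k := by omega
      rw [h2, ZMod.natCast_self]
    push_cast at h1
    exact h1
  fin_cases i <;> fin_cases j
  · -- A0 ~ B0 : E(1,3) ~ O(2,3)
    refine ⟨.inl (1, 3), both_inl ⟨rfl, 2, le_rfl, by push_cast; norm_num⟩,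
      .inr (2, 3), both_inr ⟨rfl, 0, le_rfl, by simp⟩, 2, ?_⟩
    ext <;> simp [dd]; norm_num
  · -- A0 ~ B1 : E(0,1) ~ O(1,1)
    refine ⟨.inr (1, 1), both_inr ⟨rfl, 0, by omega, by simp⟩,
      .inl (0, 1), both_inl ⟨rfl, k - 3, le_rfl, hlast.symm⟩, 2, ?_⟩
    ext <;> simp [dd]
  · -- A0 ~ B2 : E(0,2) ~ O(1,2)
    refine ⟨.inr (1, 2), both_inr ⟨rfl, 1, by omega, by push_cast; norm_num⟩,
      .inl (0, 2), both_inl ⟨rfl, k - 3, le_rfl, hlast.symm⟩, 2, ?_⟩
    ext <;> simp [dd]
  · -- A1 ~ B0 : O(2,2) ~ E(2,3)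
    refine ⟨.inr (2, 2), both_inr ⟨rfl, 1, le_rfl, by push_cast; norm_num⟩,
      .inl (2, 3), both_inl ⟨rfl, 0, le_rfl, by simp⟩, 1, ?_⟩
    ext <;> simp [dd]; norm_num
  · -- A1 ~ B1 : E(2,1) ~ O(3,1)
    refine ⟨.inl (2, 1), both_inl ⟨rfl, 0, by omega, by simp⟩,
      .inr (3, 1), both_inr ⟨rfl, 0, by omega, by simp⟩, 2, ?_⟩
    ext <;> simp [dd]; norm_num
  · -- A1 ~ B2 : E(2,2) ~ O(3,2)
    refine ⟨.inl (2, 2), both_inl ⟨rfl, 1, le_rfl, by push_cast; norm_num⟩,
      .inr (3, 2), both_inr ⟨rfl, 0, by omega, by simp⟩, 2, ?_⟩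
    ext <;> simp [dd]; norm_num
  · -- A2 ~ B0 : E(2,3) ~ O(3,3)
    refine ⟨.inr (3, 3), both_inr ⟨rfl, 0, by omega, by simp⟩,
      .inl (2, 3), both_inl ⟨rfl, 0, le_rfl, by simp⟩, 2, ?_⟩
    ext <;> simp [dd]; norm_num
  · -- A2 ~ B1 : O(3,0) ~ E(3,1)
    refine ⟨.inr (3, 0), both_inr ⟨rfl, k - 3, le_rfl, hlast.symm⟩,
      .inl (3, 1), both_inl ⟨rfl, 0, by omega, by simp⟩, 1, ?_⟩
    ext <;> simp [dd]
  · -- A2 ~ B2 : E(3,3) ~ O(3,2)
    refine ⟨.inl (3, 3), both_inl ⟨rfl, 0, by omega, by simp⟩,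
      .inr (3, 2), both_inr ⟨rfl, 0, by omega, by simp⟩, 1, ?_⟩
    ext <;> simp [dd]; norm_num

lemma base_minor (hk : 4 ≤ k) :
    MinorAvoiding (completeBipartiteGraph (Fin 3) (Fin 3)) (baseG k) (.inl 0) := by
  refine ⟨fun w => both (branch k w), ?_, ?_, ?_, ?_⟩
  · intro w
    rcases w with w | w <;> fin_cases w
    · exact vert_connected _ _ _
    · exact vert_connected _ _ _
    · exact vert_connected _ _ _
    · exact vert_connected _ _ _
    · exact horiz_connected _ _ _
    · exact horiz_connected _ _ _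
  · intro w w' h
    exact both_disjoint (branch_disjoint hk w w' h)
  · intro w w' h
    rcases w with i | i <;> rcases w' with j | j
    · simp at h
    · exact branch_adj hk i j
    · obtain ⟨a, ha, b, hb, hab⟩ := branch_adj hk j i
      exact ⟨b, hb, a, ha, (baseG k).adj_symm hab⟩
    · simp at h
  · rintro w (⟨g, hg, h⟩ | ⟨g, hg, h⟩)
    · rw [← Sum.inl_injective h] at hg
      exact zero_notMem_branch hk w hg
    · simp at h

end Pool.Agent.MP_6bdc24_co
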