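import Mathlib

/-!
Definitions for the statement about peripheral cycles and representativity.
-/

namespace Pool.Agent.MP_6bdc24_co

/-- The subgraph `C` is a cycle of the simple graph `G`. -/
def IsCycleOf {V : Type} (G : SimpleGraph V) (C : G.Subgraph) : Prop :=
  ∃ (v : V) (w : G.Walk v v), w.IsCycle ∧ C = w.toSubgraph

/-- A peripheral cycle of `G`: a cycle `C` which is an induced subgraph and for which `G - V(C)`
is connected.  (The empty graph is allowed as `G - V(C)`.) -/
def IsPeripheralCycle {V : Type} (G : SimpleGraph V) (C : G.Subgraph) : Prop :=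
  IsCycleOf G C ∧ C.IsInduced ∧ (G.induce (C.verts)ᶜ).Preconnected

/-- The number of peripheral cycles of `G` (used for finite graphs). -/
noncomputable def numPeripheral {V : Type} (G : SimpleGraph V) : ℕ :=
  {C : G.Subgraph | IsPeripheralCycle G C}.ncard

/-- `H` is a minor of `G`: there are pairwise disjoint connected branch sets in `G`, one for each
vertex of `H`, such that `G` has an edge between the branch sets of any two adjacent vertices. -/
def IsMinor {W V : Type} (H : SimpleGraph W) (G : SimpleGraph V) : Prop :=
  ∃ B : W → Set V, (∀ w, (G.induce (B w)).Connected) ∧ (∀ w w', w ≠ w' → Disjoint (B w) (B w')) ∧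
    ∀ w w', H.Adj w w' → ∃ a ∈ B w, ∃ b ∈ B w', G.Adj a b

/-- Nonplanarity of a finite graph, in the form of Wagner's theorem: `G` has a `K_{3,3}` minor or
a `K_5` minor. -/
def Nonplanar {V : Type} (G : SimpleGraph V) : Prop :=
  IsMinor (completeBipartiteGraph (Fin 3) (Fin 3)) G ∨ IsMinor (⊤ : SimpleGraph (Fin 5)) G

/-- Compact connected surfaces without boundary: compact connected Hausdorff spaces in which every
point has an open neighbourhood homeomorphic to an open subset of the plane. -/
structure IsClosedSurface (X : Type) [TopologicalSpace X] : Prop where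
  compact : CompactSpace X
  hausdorff : T2Space X
  connected : ConnectedSpace X
  locallyPlane : ∀ x : X, ∃ U : Set X, IsOpen U ∧ x ∈ U ∧
    ∃ W : Set (ℝ × ℝ), IsOpen W ∧ Nonempty (U ≃ₜ W)

/-- An embedding of the simple graph `G` in the space `X`: distinct vertices are distinct points,
each edge `uv` is a simple arc joining the points of `u` and `v`, an arc contains no vertex point
other than those of its two ends, and the arcs of different edges meet only in vertex points. -/
structure Embedding {V : Type} (G : SimpleGraph V) (X : Type) [TopologicalSpace X] where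
  pt : V → X
  arc : V → V → Set X
  pt_injective : Function.Injective pt
  arc_symm : ∀ u v, arc u v = arc v u
  isArc : ∀ u v, G.Adj u v → ∃ γ : Path (pt u) (pt v), Function.Injective γ ∧
    Set.range γ = arc u v
  ends : ∀ u v w, G.Adj u v → pt w ∈ arc u v → w = u ∨ w = v
  disj : ∀ u v u' v', G.Adj u v → G.Adj u' v' → s(u, v) ≠ s(u', v') →
    arc u v ∩ arc u' v' ⊆ Set.range pt

/-- The point set occupied by an embedded graph. -/
def Embedding.carrier {V : Type} {G : SimpleGraph V} {X : Type} [TopologicalSpace X]
    (D : Embedding G X) : Set X :=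
  {p | (∃ v, p = D.pt v) ∨ ∃ u v, G.Adj u v ∧ p ∈ D.arc u v}

/-- A simple closed curve: a loop which is injective apart from the coincidence of its ends. -/
def IsSimpleClosed {X : Type} [TopologicalSpace X] {x : X} (γ : Path x x) : Prop :=
  ∀ s t : unitInterval, γ s = γ t → s = t ∨ (s = 0 ∧ t = 1) ∨ (s = 1 ∧ t = 0)

/-- `G` has representativity at least `k`: it has an embedding in some compact connected surface
without boundary, other than the sphere, such that every noncontractible simple closed curve meets
the embedded graph in at least `k` points. -/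
def HasRepresentativityAtLeast {V : Type} (G : SimpleGraph V) (k : ℕ) : Prop :=
  ∃ (X : Type) (_ : TopologicalSpace X) (D : Embedding G X),
    IsClosedSurface X ∧
    IsEmpty (X ≃ₜ Metric.sphere (0 : EuclideanSpace ℝ (Fin 3)) 1) ∧
    ∀ (x : X) (γ : Path x x), IsSimpleClosed γ → ¬ γ.Homotopic (Path.refl x) →
      (k : ℕ∞) ≤ (Set.range γ ∩ D.carrier).encard

end Pool.Agent.MP_6bdc24_co
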