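import Pool.Agent.MP_6bdc24_co.Geom

/-!
Drawings on the torus.
-/

namespace Pool.Agent.MP_6bdc24_co

open unitInterval

/-- drawings with an index type for the edges -/
structure Dr {V : Type} (G : SimpleGraph V) where
  Ed : Type
  a : Ed → V
  b : Ed → V
  pt : V → Torus
  arc : Ed → Set Torus
  adj : ∀ e, G.Adj (a e) (b e)
  surj : ∀ u w, G.Adj u w → ∃ e, (a e = u ∧ b e = w) ∨ (a e = w ∧ b e = u)
  inj : ∀ e e', s(a e, b e) = s(a e', b e') → e = e'
  pt_inj : Function.Injective pt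
  isArc : ∀ e, ∃ γ : Path (pt (a e)) (pt (b e)), Function.Injective γ ∧ Set.range γ = arc e
  ends : ∀ e w, pt w ∈ arc e → w = a e ∨ w = b e
  disj : ∀ e e', e ≠ e' → arc e ∩ arc e' ⊆ Set.range pt

/-- conversion to the official notion -/
def Dr.toEmbedding {V : Type} {G : SimpleGraph V} (D : Dr G) : Embedding G Torus where
  pt := D.pt
  arc u w := {p | ∃ e, ((D.a e = u ∧ D.b e = w) ∨ (D.a e = w ∧ D.b e = u)) ∧ p ∈ D.arc e}
  pt_injective := D.pt_inj
  arc_symm := by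
    intro u v
    ext p
    constructor
    · rintro ⟨e, h, hp⟩
      exact ⟨e, h.symm, hp⟩
    · rintro ⟨e, h, hp⟩
      exact ⟨e, h.symm, hp⟩
  isArc := by
    intro u v huv
    obtain ⟨e, he⟩ := D.surj u v huv
    have huniq : ∀ e', ((D.a e' = u ∧ D.b e' = v) ∨ (D.a e' = v ∧ D.b e' = u)) → e' = e := by
      intro e' he'
      apply D.inj
      rcases he with ⟨h1, h2⟩ | ⟨h1, h2⟩ <;> rcases he' with ⟨h3, h4⟩ | ⟨h3, h4⟩ <;>
        rw [h1, h2, h3, h4]
      · exact Sym2.eq_swap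
      · exact Sym2.eq_swap
    have hset : {p | ∃ e, ((D.a e = u ∧ D.b e = v) ∨ (D.a e = v ∧ D.b e = u)) ∧ p ∈ D.arc e}
        = D.arc e := by
      ext p
      constructor
      · rintro ⟨e', he', hp⟩
        rw [huniq e' he'] at hp
        exact hp
      · intro hp
        exact ⟨e, he, hp⟩
    obtain ⟨γ, hγ1, hγ2⟩ := D.isArc e
    rcases he with ⟨h1, h2⟩ | ⟨h1, h2⟩
    · subst h1 h2
      exact ⟨γ, hγ1, hγ2.trans hset.symm⟩
    · subst h1 h2
      refine ⟨γ.symm, ?_, ?_⟩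
      · intro s t hst
        rw [Path.symm_apply, Path.symm_apply] at hst
        exact unitInterval.symm_bijective.injective (hγ1 hst)
      · rw [Path.symm_range, hγ2, hset]
  ends := by
    rintro u v w - ⟨e, he, hp⟩
    have := D.ends e w hp
    rcases he with ⟨h1, h2⟩ | ⟨h1, h2⟩ <;> rw [h1, h2] at this
    · exact this
    · exact this.symm
  disj := by
    rintro u v u' v' - - hne p ⟨⟨e, he, hp⟩, ⟨e', he', hp'⟩⟩
    by_cases hee : e = e'
    · exfalso
      apply hne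
      subst hee
      rcases he with ⟨h1, h2⟩ | ⟨h1, h2⟩ <;> rcases he' with ⟨h3, h4⟩ | ⟨h3, h4⟩ <;>
        rw [← h1, ← h2, ← h3, ← h4]
      · exact Sym2.eq_swap
      · exact Sym2.eq_swap
    · exact D.disj e e' hee ⟨hp, hp'⟩

lemma Dr.arc_subset_carrier {V : Type} {G : SimpleGraph V} (D : Dr G) (e : D.Ed) :
    D.arc e ⊆ D.toEmbedding.carrier := by
  intro p hp
  exact Or.inr ⟨D.a e, D.b e, D.adj e, e, Or.inl ⟨rfl, rfl⟩, hp⟩

/-- the union of all arcs -/
def Dr.union {V : Type} {G : SimpleGraph V} (D : Dr G) : Set Torus := {p | ∃ e, p ∈ D.arc e}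

/-! ### The base drawing -/

section base

variable {k : ℕ}

/-- the arcs of the base drawing -/
def baseArc (k : ℕ) (e : Gam k × Fin 3) : Set Torus :=
  {p | ∃ s : ℝ, 0 ≤ s ∧ s ≤ 1 ∧
    p = prj k (((e.1.1.val : ℤ) : ℝ) + s * AX e.2) (((e.1.2.val : ℤ) : ℝ) + s * AY e.2)}

/-- the vertex points of the base drawing -/
noncomputable def basePt (k : ℕ) : Gam k ⊕ Gam k → Torus
  | .inl g => prj k (((g.1.val : ℤ) : ℝ) + 0 * AX 0) (((g.2.val : ℤ) : ℝ) + 0 * AY 0)
  | .inr h => prj k (((h.1.val : ℤ) : ℝ) + 1 * AX 0) (((h.2.val : ℤ) : ℝ) + 1 * AY 0)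

lemma cast_val (hk : 4 ≤ k) (g : Gam k) : (((g.1.val : ℤ) : ZMod k), ((g.2.val : ℤ) : ZMod k)) = g := by
  have : NeZero k := ⟨by omega⟩
  ext <;> simp

/-- the point at the far end of an edge -/
lemma basePt_inr (hk : 4 ≤ k) (g : Gam k) (i : Fin 3) : basePt k (.inr (g + dd k i)) =
    prj k (((g.1.val : ℤ) : ℝ) + 1 * AX i) (((g.2.val : ℤ) : ℝ) + 1 * AY i) := by
  have : NeZero k := ⟨by omega⟩
  unfold basePt
  rw [prj_eq_iff (by omega)]
  have h1 : (((g + dd k i).1.val : ℤ) : ZMod k) = ((g.1.val + DX i : ℤ) : ZMod k) := by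
    rw [dd_eq]; simp
  have h2 : (((g + dd k i).2.val : ℤ) : ZMod k) = ((g.2.val + DY i : ℤ) : ZMod k) := by
    rw [dd_eq]; simp
  rw [ZMod.intCast_eq_intCast_iff_dvd_sub] at h1 h2
  obtain ⟨m, hm⟩ := h1
  obtain ⟨n, hn⟩ := h2
  have hX : AX 0 + DX i = AX i := by fin_cases i <;> norm_num [AX, DX]
  have hY : AY 0 + DY i = AY i := by fin_cases i <;> norm_num [AY, DY]
  refine ⟨-m, -n, ?_, ?_⟩
  · have : ((g.1.val + DX i - (g + dd k i).1.val : ℤ) : ℝ) = ((k * m : ℤ) : ℝ) := by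
      exact_mod_cast congrArg (fun z : ℤ => (z : ℝ)) hm
    push_cast at this ⊢
    rw [← hX]
    linarith
  · have : ((g.2.val + DY i - (g + dd k i).2.val : ℤ) : ℝ) = ((k * n : ℤ) : ℝ) := by
      exact_mod_cast congrArg (fun z : ℤ => (z : ℝ)) hn
    push_cast at this ⊢
    rw [← hY]
    linarith

/-- injective straight paths -/
lemma straight (k : ℕ) (x y dx dy : ℝ)
    (hinj : ∀ s t : ℝ, 0 ≤ s → s ≤ 1 → 0 ≤ t → t ≤ 1 →
      prj k (x + s * dx) (y + s * dy) = prj k (x + t * dx) (y + t * dy) → s = t)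
    {p q : Torus} (hp : p = prj k (x + 0 * dx) (y + 0 * dy)) (hq : q = prj k (x + 1 * dx) (y + 1 * dy)) :
    ∃ γ : Path p q, Function.Injective γ ∧
      Set.range γ = {r | ∃ s : ℝ, 0 ≤ s ∧ s ≤ 1 ∧ r = prj k (x + s * dx) (y + s * dy)} := by
  refine ⟨{ toFun := fun s => prj k (x + s * dx) (y + s * dy), continuous_toFun := ?_,
            source' := ?_, target' := ?_ }, ?_, ?_⟩
  · exact (prj_continuous k).comp (f := fun s : I => (x + (s : ℝ) * dx, y + (s : ℝ) * dy))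
      (by fun_prop)
  · rw [hp]; simp
  · rw [hq]; simp
  · intro s t hst
    apply Subtype.ext
    exact hinj s t s.2.1 s.2.2 t.2.1 t.2.2 hst
  · ext r
    constructor
    · rintro ⟨s, rfl⟩
      exact ⟨s, s.2.1, s.2.2, rfl⟩
    · rintro ⟨s, h0, h1, rfl⟩
      exact ⟨⟨s, h0, h1⟩, rfl⟩

/-- The base drawing. -/
noncomputable def baseDr (hk : 4 ≤ k) : Dr (baseG k) where
  Ed := Gam k × Fin 3
  a e := .inl e.1
  b e := .inr (e.1 + dd k e.2)
  pt := basePt k
  arc := baseArc k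
  adj e := base_adj e.1 e.2
  surj := by
    intro u w huw
    rcases u with g | h <;> rcases w with g' | h'
    · exact huw.elim
    · obtain ⟨i, rfl⟩ := huw
      exact ⟨(g, i), Or.inl ⟨rfl, rfl⟩⟩
    · obtain ⟨i, rfl⟩ := huw
      exact ⟨(g', i), Or.inr ⟨rfl, rfl⟩⟩
    · exact huw.elim
  inj := by
    rintro ⟨g, i⟩ ⟨g', i'⟩ h
    obtain ⟨h1, h2⟩ := ee_inj hk (g := g) (g' := g') (i := i) (i' := i') h
    rw [h1, h2]
  pt_inj := by
    rintro (g | h) (g' | h') heq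
    · obtain ⟨-, hc⟩ := sep (by omega) 0 0 le_rfl zero_le_one le_rfl zero_le_one heq
      rw [cast_val hk, cast_val hk] at hc
      rcases hc with ⟨-, hc⟩ | ⟨hc, -⟩ | ⟨-, hc⟩
      · rw [hc]
      · norm_num at hc
      · rw [hc]
    · obtain ⟨h0, -⟩ := sep (by omega) 0 0 le_rfl zero_le_one zero_le_one le_rfl heq
      norm_num at h0
    · obtain ⟨h0, -⟩ := sep (by omega) 0 0 zero_le_one le_rfl le_rfl zero_le_one heq
      norm_num at h0
    · obtain ⟨-, hc⟩ := sep (by omega) 0 0 zero_le_one le_rfl zero_le_one le_rfl heq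
      rw [cast_val hk, cast_val hk] at hc
      rcases hc with ⟨hc, -⟩ | ⟨-, hc⟩ | ⟨-, hc⟩
      · norm_num at hc
      · rw [add_right_cancel hc]
      · rw [hc]
  isArc := by
    rintro ⟨g, i⟩
    refine straight k _ _ (AX i) (AY i) ?_ ?_ ?_
    · intro s t hs0 hs1 ht0 ht1 h
      exact (sep (by omega) i i hs0 hs1 ht0 ht1 h).1
    · show basePt k (.inl g) = _
      unfold basePt
      simp
    · exact basePt_inr hk g i
  ends := by
    rintro ⟨g, i⟩ w ⟨s, hs0, hs1, hw⟩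
    rcases w with g' | h'
    · left
      obtain ⟨h0, hc⟩ := sep (by omega) 0 i le_rfl zero_le_one hs0 hs1 hw
      rw [cast_val hk, cast_val hk] at hc
      rcases hc with ⟨-, hc⟩ | ⟨hc, -⟩ | ⟨-, hc⟩
      · rw [hc]
      · norm_num at hc
      · rw [hc]
    · right
      obtain ⟨h0, hc⟩ := sep (by omega) 0 i zero_le_one le_rfl hs0 hs1 hw
      rw [cast_val hk, cast_val hk] at hc
      have hd0 : dd k 0 = 0 := by simp [dd]
      rcases hc with ⟨hc, -⟩ | ⟨-, hc⟩ | ⟨h1, hc⟩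
      · norm_num at hc
      · rw [hd0, add_zero] at hc
        rw [hc]
      · simp only at hc h1
        rw [hc, ← h1, hd0, add_zero]
  disj := by
    rintro ⟨g, i⟩ ⟨g', i'⟩ hne p ⟨⟨s, hs0, hs1, hs⟩, ⟨t, ht0, ht1, ht⟩⟩
    obtain ⟨h0, hc⟩ := sep (by omega) i i' hs0 hs1 ht0 ht1 (hs.symm.trans ht)
    rw [cast_val hk, cast_val hk] at hc
    rcases hc with ⟨hc, -⟩ | ⟨hc, -⟩ | ⟨h1, hc⟩
    · refine ⟨.inl g, ?_⟩
      rw [hs, hc]
      unfold basePt
      simp
    · refine ⟨.inr (g + dd k i), ?_⟩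
      rw [hs, hc, basePt_inr hk]
    · exact absurd (Prod.ext hc h1) hne

end base

end Pool.Agent.MP_6bdc24_co
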