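import Pool.Agent.MP_6bdc24_co.Draw

/-!
Extending a drawing on the torus when a vertex is replaced by a triangle.
-/

namespace Pool.Agent.MP_6bdc24_co


lemma cor_continuous_left (k : ℕ) (l : ℝ) : Continuous (fun t => cor k t l) := by
  unfold cor
  exact (prj_continuous k).comp (f := fun t : ℝ => (t * (l - 1 / 3), t * (1 / 3))) (by fun_prop)

lemma cor_continuous_right (k : ℕ) (t : ℝ) : Continuous (fun l => cor k t l) := by
  unfold cor
  exact (prj_continuous k).comp (f := fun l : ℝ => (t * (l - 1 / 3), t * (1 / 3))) (by fun_prop)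

lemma arcOf {f : ℝ → Torus} (hf : Continuous f) {s₀ t₀ : ℝ} (hst : s₀ < t₀)
    (hinj : ∀ s t, s₀ ≤ s → s ≤ t₀ → s₀ ≤ t → t ≤ t₀ → f s = f t → s = t) :
    ∃ γ : Path (f s₀) (f t₀), Function.Injective γ ∧
      Set.range γ = {p | ∃ r, s₀ ≤ r ∧ r ≤ t₀ ∧ p = f r} := by
  have hpos : 0 < t₀ - s₀ := by linarith
  refine ⟨{ toFun := fun s => f (s₀ + s * (t₀ - s₀)), continuous_toFun := by fun_prop,
            source' := by simp, target' := by simp }, ?_, ?_⟩
  · intro s t h
    have h1 := hinj (s₀ + s * (t₀ - s₀)) (s₀ + t * (t₀ - s₀))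
      (by nlinarith [s.2.1]) (by nlinarith [s.2.2]) (by nlinarith [t.2.1]) (by nlinarith [t.2.2]) h
    apply Subtype.ext
    have h2 : ((s : ℝ) - t) * (t₀ - s₀) = 0 := by linarith
    rcases mul_eq_zero.mp h2 with h3 | h3
    · linarith
    · linarith
  · ext p
    constructor
    · rintro ⟨s, rfl⟩
      exact ⟨s₀ + s * (t₀ - s₀), by nlinarith [s.2.1], by nlinarith [s.2.2], rfl⟩
    · rintro ⟨r, h0, h1, rfl⟩
      refine ⟨⟨(r - s₀) / (t₀ - s₀), by apply div_nonneg <;> linarith,
        by rw [div_le_one hpos]; linarith⟩, ?_⟩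
      show f (s₀ + (r - s₀) / (t₀ - s₀) * (t₀ - s₀)) = f r
      congr 1
      field_simp
      ring

/-- a piece of a ray of the corner -/
def ray (k : ℕ) (l s t : ℝ) : Set Torus := {p | ∃ r, s ≤ r ∧ r ≤ t ∧ p = cor k r l}

/-- a rung of the corner -/
def rung (k : ℕ) (t : ℝ) : Set Torus := {p | ∃ l, 0 ≤ l ∧ l ≤ 1 ∧ p = cor k t l}

/-- what we remember about a drawing near the special vertex -/
structure Inv {V : Type} {G : SimpleGraph V} (k : ℕ) (D : Dr G) (v : V) (x : Fin 3 → V) where
  τ : ℝ
  τpos : 0 < τ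
  τle : τ ≤ 1
  e1 : D.Ed
  e2 : D.Ed
  a1 : D.a e1 = v
  b1 : D.b e1 = x 1
  a2 : D.a e2 = v
  b2 : D.b e2 = x 2
  ptv : D.pt v = cor k 0 0
  pt1 : D.pt (x 1) = cor k τ 0
  pt2 : D.pt (x 2) = cor k τ 1
  arc1 : D.arc e1 = ray k 0 0 τ
  arc2 : D.arc e2 = ray k 1 0 τ
  free : ∀ t l, 0 < t → t < τ → 0 < l → l < 1 → ∀ e, cor k t l ∉ D.arc e
  free' : ∀ t l, 0 < t → t < τ → 0 < l → l < 1 → ∀ w, cor k t l ≠ D.pt w

open Classical in
/-- old vertices in the new graph -/
noncomputable def up {V : Type} (v : V) (y : V) : NewV v := if h : y = v then .inr 0 else .inl ⟨y, h⟩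

section

variable {V : Type} {G : SimpleGraph V} {v : V} {x : Fin 3 → V}

lemma up_v : up v v = .inr 0 := by simp [up]

lemma up_ne {y : V} (h : y ≠ v) : up v y = .inl ⟨y, h⟩ := by simp [up, h]

lemma contr_up (y : V) : contr v (up v y) = y := by
  by_cases h : y = v
  · subst h; rw [up_v]; rfl
  · rw [up_ne h]; rfl

lemma up_inl (y : {y : V // y ≠ v}) : up v y.1 = .inl y := up_ne y.2

/-- the points of the new drawing -/
noncomputable def newPt {k : ℕ} (D : Dr G) (I : Inv k D v x) : NewV v → Torus
  | .inl y => D.pt y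
  | .inr 0 => D.pt v
  | .inr 1 => cor k (I.τ / 2) 0
  | .inr 2 => cor k (I.τ / 2) 1

open Classical in
/-- first ends -/
noncomputable def newA {k : ℕ} (D : Dr G) (I : Inv k D v x) : D.Ed ⊕ Fin 3 → NewV v
  | .inl e => if e = I.e1 then .inr 1 else if e = I.e2 then .inr 2 else up v (D.a e)
  | .inr 0 => .inr 0
  | .inr 1 => .inr 0
  | .inr 2 => .inr 1

/-- second ends -/
noncomputable def newB {k : ℕ} (D : Dr G) (_I : Inv k D v x) : D.Ed ⊕ Fin 3 → NewV v
  | .inl e => up v (D.b e)
  | .inr 0 => .inr 1
  | .inr 1 => .inr 2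
  | .inr 2 => .inr 2

open Classical in
/-- arcs -/
noncomputable def newArc {k : ℕ} (D : Dr G) (I : Inv k D v x) : D.Ed ⊕ Fin 3 → Set Torus
  | .inl e => if e = I.e1 then ray k 0 (I.τ / 2) I.τ else
      if e = I.e2 then ray k 1 (I.τ / 2) I.τ else D.arc e
  | .inr 0 => ray k 0 0 (I.τ / 2)
  | .inr 1 => ray k 1 0 (I.τ / 2)
  | .inr 2 => rung k (I.τ / 2)

variable {k : ℕ} (D : Dr G) (I : Inv k D v x)

set_option linter.unusedSectionVars false

lemma newPt_up (y : V) : newPt D I (up v y) = D.pt y := by
  by_cases h : y = v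
  · subst h; rw [up_v]; rfl
  · rw [up_ne h]; rfl

lemma e1_ne_e2 (h : Config G v x) : I.e1 ≠ I.e2 := by
  intro he
  have h1 := I.b1
  have h2 := I.b2
  rw [he, h2] at h1
  exact absurd (h.inj h1) (by decide)

lemma newArc_inl_subset (e : D.Ed) : newArc D I (.inl e) ⊆ D.arc e := by
  have h0 := I.τpos
  simp only [newArc]
  split_ifs with h1 h2
  · subst h1
    rw [I.arc1]
    rintro p ⟨r, hr0, hr1, rfl⟩
    exact ⟨r, by linarith, hr1, rfl⟩
  · subst h2
    rw [I.arc2]
    rintro p ⟨r, hr0, hr1, rfl⟩
    exact ⟨r, by linarith, hr1, rfl⟩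
  · exact le_rfl

lemma newArc_inr0_subset : newArc D I (.inr 0) ⊆ D.arc I.e1 := by
  have h0 := I.τpos
  rw [I.arc1]
  rintro p ⟨r, hr0, hr1, rfl⟩
  exact ⟨r, hr0, by linarith, rfl⟩

lemma newArc_inr1_subset : newArc D I (.inr 1) ⊆ D.arc I.e2 := by
  have h0 := I.τpos
  rw [I.arc2]
  rintro p ⟨r, hr0, hr1, rfl⟩
  exact ⟨r, hr0, by linarith, rfl⟩

variable (hk : 4 ≤ k)

include hk

lemma ray_inj {l r r' : ℝ} (hl0 : 0 ≤ l) (hl1 : l ≤ 1) (h0 : 0 ≤ r) (h1 : r ≤ 1) (h0' : 0 ≤ r')
    (h1' : r' ≤ 1) (h : cor k r l = cor k r' l) : r = r' :=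
  (cor_inj hk h0 h1 h0' h1' hl0 hl1 hl0 hl1 h).1

lemma cor_zero_eq (l : ℝ) : cor k 0 l = cor k 0 0 := by
  unfold cor
  simp

lemma P_mem : cor k (I.τ / 2) 0 ∈ D.arc I.e1 := by
  rw [I.arc1]
  have := I.τpos
  exact ⟨I.τ / 2, by linarith, by linarith, rfl⟩

lemma Q_mem : cor k (I.τ / 2) 1 ∈ D.arc I.e2 := by
  rw [I.arc2]
  have := I.τpos
  exact ⟨I.τ / 2, by linarith, by linarith, rfl⟩

lemma P_notMem (w : V) : cor k (I.τ / 2) 0 ≠ D.pt w := by
  intro hw
  have h0 := I.τpos
  have h1 := I.τle
  have h2 := P_mem D I hk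
  rw [hw] at h2
  rcases D.ends _ _ h2 with h3 | h3
  · rw [I.a1] at h3
    rw [h3, I.ptv] at hw
    have := ray_inj hk le_rfl zero_le_one (by linarith) (by linarith) le_rfl zero_le_one hw
    linarith
  · rw [I.b1] at h3
    rw [h3, I.pt1] at hw
    have := ray_inj hk le_rfl zero_le_one (by linarith) (by linarith) (by linarith) h1 hw
    linarith

lemma Q_notMem (w : V) : cor k (I.τ / 2) 1 ≠ D.pt w := by
  intro hw
  have h0 := I.τpos
  have h1 := I.τle
  have h2 := Q_mem D I hk
  rw [hw] at h2
  rcases D.ends _ _ h2 with h3 | h3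
  · rw [I.a2] at h3
    rw [h3, I.ptv, ← cor_zero_eq hk 1] at hw
    have := ray_inj hk zero_le_one le_rfl (by linarith) (by linarith) le_rfl zero_le_one hw
    linarith
  · rw [I.b2] at h3
    rw [h3, I.pt2] at hw
    have := ray_inj hk zero_le_one le_rfl (by linarith) (by linarith) (by linarith) h1 hw
    linarith

lemma P_uniq (e : D.Ed) (h : cor k (I.τ / 2) 0 ∈ D.arc e) : e = I.e1 := by
  by_contra hne
  obtain ⟨w, hw⟩ := D.disj e I.e1 hne ⟨h, P_mem D I hk⟩
  exact P_notMem D I hk w hw.symm

lemma Q_uniq (e : D.Ed) (h : cor k (I.τ / 2) 1 ∈ D.arc e) : e = I.e2 := by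
  by_contra hne
  obtain ⟨w, hw⟩ := D.disj e I.e2 hne ⟨h, Q_mem D I hk⟩
  exact Q_notMem D I hk w hw.symm

lemma P_ne_Q : cor k (I.τ / 2) 0 ≠ cor k (I.τ / 2) 1 := by
  intro h
  have h0 := I.τpos
  have h1 := I.τle
  rcases (cor_inj hk (by linarith) (by linarith) (by linarith) (by linarith) le_rfl zero_le_one
    zero_le_one le_rfl h).2 with h2 | h2
  · linarith
  · norm_num at h2

lemma newPt_injective : Function.Injective (newPt D I) := by
  have hvy : ∀ y : {y : V // y ≠ v}, D.pt y ≠ D.pt v := fun y h => y.2 (D.pt_inj h)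
  intro p q h
  rcases p with y | i <;> rcases q with z | j
  · have : D.pt y = D.pt z := h
    rw [Subtype.ext (D.pt_inj this)]
  · fin_cases j
    · exact absurd h (hvy y)
    · exact absurd (Eq.symm h) (P_notMem D I hk y)
    · exact absurd (Eq.symm h) (Q_notMem D I hk y)
  · fin_cases i
    · exact absurd (Eq.symm h) (hvy z)
    · exact absurd h (P_notMem D I hk z)
    · exact absurd h (Q_notMem D I hk z)
  · fin_cases i <;> fin_cases j
    · rfl
    · exact absurd (Eq.symm h) (P_notMem D I hk v)
    · exact absurd (Eq.symm h) (Q_notMem D I hk v)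
    · exact absurd h (P_notMem D I hk v)
    · rfl
    · exact absurd h (P_ne_Q D I hk)
    · exact absurd h (Q_notMem D I hk v)
    · exact absurd (Eq.symm h) (P_ne_Q D I hk)
    · rfl

/-- a point of the rung on an old arc is an end of the rung -/
lemma rung_old {l : ℝ} (hl0 : 0 ≤ l) (hl1 : l ≤ 1) (e : D.Ed) (h : cor k (I.τ / 2) l ∈ D.arc e) :
    l = 0 ∨ l = 1 := by
  by_contra hcon
  push Not at hcon
  have h0 := I.τpos
  exact I.free (I.τ / 2) l (by linarith) (by linarith) (lt_of_le_of_ne hl0 (Ne.symm hcon.1))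
    (lt_of_le_of_ne hl1 hcon.2) e h

lemma rung_pt {l : ℝ} (hl0 : 0 ≤ l) (hl1 : l ≤ 1) (w : NewV v) (h : cor k (I.τ / 2) l = newPt D I w) :
    l = 0 ∨ l = 1 := by
  by_contra hcon
  push Not at hcon
  have h0 := I.τpos
  have h1 := I.τle
  have hfree := I.free' (I.τ / 2) l (by linarith) (by linarith)
    (lt_of_le_of_ne hl0 (Ne.symm hcon.1)) (lt_of_le_of_ne hl1 hcon.2)
  rcases w with y | i
  · exact hfree y h
  · fin_cases i
    · exact hfree v h
    · rcases (cor_inj hk (by linarith) (by linarith) (by linarith) (by linarith) hl0 hl1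
        le_rfl zero_le_one h).2 with h2 | h2
      · linarith
      · exact hcon.1 h2
    · rcases (cor_inj hk (by linarith) (by linarith) (by linarith) (by linarith) hl0 hl1
        zero_le_one le_rfl h).2 with h2 | h2
      · linarith
      · exact hcon.2 h2

omit hk in
lemma not_old_other {e : D.Ed} (he1 : e ≠ I.e1) (he2 : e ≠ I.e2) {i : Fin 3}
    (hab : s(D.a e, D.b e) = s(v, x i)) : i = 0 := by
  fin_cases i
  · rfl
  · exfalso
    apply he1
    apply D.inj
    rw [hab, I.a1, I.b1]
    rfl
  · exfalso
    apply he2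
    apply D.inj
    rw [hab, I.a2, I.b2]
    rfl

omit hk in
lemma new_adj (h : Config G v x) (f : D.Ed ⊕ Fin 3) :
    (newG G v x).Adj (newA D I f) (newB D I f) := by
  rcases f with e | i
  · simp only [newA, newB]
    split_ifs with h1 h2
    · subst h1
      rw [I.b1, up_ne (h.ne 1)]
      exact rfl
    · subst h2
      rw [I.b2, up_ne (h.ne 2)]
      exact rfl
    · have hadj := D.adj e
      by_cases ha : D.a e = v
      · rw [ha] at hadj
        obtain ⟨i, hi⟩ := (h.adj _).mp hadj
        have hi0 := not_old_other D I h1 h2 (i := i) (by rw [ha, hi])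
        subst hi0
        rw [ha, hi, up_v, up_ne (h.ne 0)]
        exact rfl
      · by_cases hb : D.b e = v
        · rw [hb] at hadj
          obtain ⟨i, hi⟩ := (h.adj _).mp (G.adj_symm hadj)
          have hi0 := not_old_other D I h1 h2 (i := i) (by rw [hb, hi]; exact Sym2.eq_swap)
          subst hi0
          rw [hb, hi, up_v, up_ne (h.ne 0)]
          exact rfl
        · rw [up_ne ha, up_ne hb]
          exact hadj
  · fin_cases i
    · show (0 : Fin 3) ≠ 1
      decide
    · show (0 : Fin 3) ≠ 2
      decide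
    · show (1 : Fin 3) ≠ 2
      decide

omit hk in
lemma new_surj (h : Config G v x) (p q : NewV v) (hpq : (newG G v x).Adj p q) :
    ∃ f, (newA D I f = p ∧ newB D I f = q) ∨ (newA D I f = q ∧ newB D I f = p) := by
  have hne12 := e1_ne_e2 D I h
  -- edges between an old vertex and the triangle
  have hlr : ∀ (y : {y : V // y ≠ v}) (i : Fin 3), y.1 = x i →
      ∃ f, (newA D I f = .inl y ∧ newB D I f = .inr i) ∨ (newA D I f = .inr i ∧ newB D I f = .inl y) := by
    intro y i hy
    fin_cases i
    · have hadj : G.Adj v y := (h.adj _).mpr ⟨0, hy⟩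
      obtain ⟨e, he⟩ := D.surj v y hadj
      have he1 : e ≠ I.e1 := by
        rintro rfl
        rw [I.a1, I.b1] at he
        rcases he with ⟨-, h2⟩ | ⟨h2, -⟩
        · have h3 := h.inj (h2.trans hy)
          exact absurd h3 (by decide)
        · exact y.2 h2.symm
      have he2 : e ≠ I.e2 := by
        rintro rfl
        rw [I.a2, I.b2] at he
        rcases he with ⟨-, h2⟩ | ⟨h2, -⟩
        · have h3 := h.inj (h2.trans hy)
          exact absurd h3 (by decide)
        · exact y.2 h2.symm
      refine ⟨.inl e, ?_⟩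
      simp only [newA, newB]
      rw [if_neg he1, if_neg he2]
      rcases he with ⟨h1, h2⟩ | ⟨h1, h2⟩
      · right
        rw [h1, h2]
        exact ⟨up_v, up_inl y⟩
      · left
        rw [h1, h2]
        exact ⟨up_inl y, up_v⟩
    · refine ⟨.inl I.e1, Or.inr ⟨?_, ?_⟩⟩
      · simp [newA]
      · simp only [newB]
        rw [I.b1]
        have : x 1 = y.1 := hy.symm
        rw [this, up_inl]
    · refine ⟨.inl I.e2, Or.inr ⟨?_, ?_⟩⟩
      · simp [newA, hne12.symm]
      · simp only [newB]
        rw [I.b2]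
        have : x 2 = y.1 := hy.symm
        rw [this, up_inl]
  rcases p with y | i <;> rcases q with z | j
  · obtain ⟨e, he⟩ := D.surj y z hpq
    have hab : D.a e ≠ v ∧ D.b e ≠ v := by
      rcases he with ⟨h1, h2⟩ | ⟨h1, h2⟩
      · rw [h1, h2]; exact ⟨y.2, z.2⟩
      · rw [h1, h2]; exact ⟨z.2, y.2⟩
    have he1 : e ≠ I.e1 := by
      rintro rfl
      exact hab.1 I.a1
    have he2 : e ≠ I.e2 := by
      rintro rfl
      exact hab.1 I.a2
    refine ⟨.inl e, ?_⟩
    simp only [newA, newB]
    rw [if_neg he1, if_neg he2]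
    rcases he with ⟨h1, h2⟩ | ⟨h1, h2⟩
    · left; rw [h1, h2]; exact ⟨up_inl y, up_inl z⟩
    · right; rw [h1, h2]; exact ⟨up_inl z, up_inl y⟩
  · exact hlr y j hpq
  · obtain ⟨f, hf⟩ := hlr z i hpq
    exact ⟨f, hf.symm⟩
  · have hij : i ≠ j := hpq
    fin_cases i <;> fin_cases j
    · exact absurd rfl hij
    · exact ⟨.inr 0, Or.inl ⟨rfl, rfl⟩⟩
    · exact ⟨.inr 1, Or.inl ⟨rfl, rfl⟩⟩
    · exact ⟨.inr 0, Or.inr ⟨rfl, rfl⟩⟩
    · exact absurd rfl hij
    · exact ⟨.inr 2, Or.inl ⟨rfl, rfl⟩⟩
    · exact ⟨.inr 1, Or.inr ⟨rfl, rfl⟩⟩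
    · exact ⟨.inr 2, Or.inr ⟨rfl, rfl⟩⟩
    · exact absurd rfl hij

omit hk in
lemma contr_ends (e : D.Ed) : contr v (newA D I (.inl e)) = D.a e ∧ contr v (newB D I (.inl e)) = D.b e := by
  constructor
  · simp only [newA]
    split_ifs with h1 h2
    · rw [h1, I.a1]; rfl
    · rw [h2, I.a2]; rfl
    · exact contr_up _
  · exact contr_up _

omit hk in
lemma new_inj (f f' : D.Ed ⊕ Fin 3)
    (hff : s(newA D I f, newB D I f) = s(newA D I f', newB D I f')) : f = f' := by
  have hc := congrArg (Sym2.map (contr v)) hff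
  rw [Sym2.map_mk, Sym2.map_mk] at hc
  have hdiag : ∀ i : Fin 3, s(contr v (newA D I (.inr i)), contr v (newB D I (.inr i))) = s(v, v) := by
    intro i; fin_cases i <;> rfl
  have hnd : ∀ e : D.Ed, s(D.a e, D.b e) ≠ s(v, v) := by
    intro e he
    have hadj := D.adj e
    rw [Sym2.eq_iff] at he
    rcases he with ⟨h1, h2⟩ | ⟨h1, h2⟩ <;> rw [h1, h2] at hadj <;> exact G.loopless.irrefl _ hadj
  rcases f with e | i <;> rcases f' with e' | i'
  · congr 1
    apply D.inj
    rw [(contr_ends D I e).1, (contr_ends D I e).2, (contr_ends D I e').1, (contr_ends D I e').2] at hc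
    exact hc
  · exfalso
    rw [hdiag, (contr_ends D I e).1, (contr_ends D I e).2] at hc
    exact hnd e hc
  · exfalso
    rw [hdiag, (contr_ends D I e').1, (contr_ends D I e').2] at hc
    exact hnd e' hc.symm
  · fin_cases i <;> fin_cases i' <;> simp [newA, newB] at hff ⊢

lemma new_isArc (h : Config G v x) (f : D.Ed ⊕ Fin 3) :
    ∃ γ : Path (newPt D I (newA D I f)) (newPt D I (newB D I f)), Function.Injective γ ∧
      Set.range γ = newArc D I f := by
  have h0 := I.τpos
  have h1 := I.τle
  have hne12 := e1_ne_e2 D I h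
  rcases f with e | i
  · by_cases he1 : e = I.e1
    · subst he1
      have hA : newPt D I (newA D I (.inl I.e1)) = cor k (I.τ / 2) 0 := by
        simp only [newA, if_pos]
        rfl
      have hB : newPt D I (newB D I (.inl I.e1)) = cor k I.τ 0 := by
        simp only [newB]
        rw [newPt_up, I.b1, I.pt1]
      have hC : newArc D I (.inl I.e1) = ray k 0 (I.τ / 2) I.τ := by
        simp only [newArc, if_pos]
      rw [hA, hB, hC]
      exact arcOf (cor_continuous_left k 0) (by linarith) (fun s t hs hs' ht ht' hst =>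
        ray_inj hk le_rfl zero_le_one (by linarith) (by linarith) (by linarith) (by linarith) hst)
    · by_cases he2 : e = I.e2
      · subst he2
        have hA : newPt D I (newA D I (.inl I.e2)) = cor k (I.τ / 2) 1 := by
          simp only [newA, if_neg hne12.symm, if_pos]
          rfl
        have hB : newPt D I (newB D I (.inl I.e2)) = cor k I.τ 1 := by
          simp only [newB]
          rw [newPt_up, I.b2, I.pt2]
        have hC : newArc D I (.inl I.e2) = ray k 1 (I.τ / 2) I.τ := by
          simp only [newArc, if_neg hne12.symm, if_pos]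
        rw [hA, hB, hC]
        exact arcOf (cor_continuous_left k 1) (by linarith) (fun s t hs hs' ht ht' hst =>
          ray_inj hk zero_le_one le_rfl (by linarith) (by linarith) (by linarith) (by linarith) hst)
      · have hA : newPt D I (newA D I (.inl e)) = D.pt (D.a e) := by
          simp only [newA, if_neg he1, if_neg he2]
          exact newPt_up D I _
        have hB : newPt D I (newB D I (.inl e)) = D.pt (D.b e) := newPt_up D I _
        have hC : newArc D I (.inl e) = D.arc e := by
          simp only [newArc, if_neg he1, if_neg he2]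
        rw [hA, hB, hC]
        exact D.isArc e
  · fin_cases i
    · have hA : newPt D I (newA D I (.inr 0)) = cor k 0 0 := I.ptv
      show ∃ γ : Path (newPt D I (newA D I (.inr 0))) (cor k (I.τ / 2) 0), Function.Injective γ ∧
        Set.range γ = ray k 0 0 (I.τ / 2)
      rw [hA]
      exact arcOf (cor_continuous_left k 0) (by linarith) (fun s t hs hs' ht ht' hst =>
        ray_inj hk le_rfl zero_le_one (by linarith) (by linarith) (by linarith) (by linarith) hst)
    · have hA : newPt D I (newA D I (.inr 1)) = cor k 0 1 := by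
        rw [cor_zero_eq hk]; exact I.ptv
      show ∃ γ : Path (newPt D I (newA D I (.inr 1))) (cor k (I.τ / 2) 1), Function.Injective γ ∧
        Set.range γ = ray k 1 0 (I.τ / 2)
      rw [hA]
      exact arcOf (cor_continuous_left k 1) (by linarith) (fun s t hs hs' ht ht' hst =>
        ray_inj hk zero_le_one le_rfl (by linarith) (by linarith) (by linarith) (by linarith) hst)
    · show ∃ γ : Path (cor k (I.τ / 2) 0) (cor k (I.τ / 2) 1), Function.Injective γ ∧
        Set.range γ = rung k (I.τ / 2)
      refine arcOf (cor_continuous_right k (I.τ / 2)) zero_lt_one (fun s t hs hs' ht ht' hst => ?_)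
      rcases (cor_inj hk (by linarith) (by linarith) (by linarith) (by linarith) hs hs' ht ht' hst).2
        with h2 | h2
      · linarith
      · exact h2

lemma new_ends (h : Config G v x) (f : D.Ed ⊕ Fin 3) (w : NewV v) (hw : newPt D I w ∈ newArc D I f) :
    w = newA D I f ∨ w = newB D I f := by
  have h0 := I.τpos
  have h1 := I.τle
  have hne12 := e1_ne_e2 D I h
  rcases f with e | i
  · have hold := newArc_inl_subset D I e hw
    by_cases he1 : e = I.e1
    · subst he1
      have hC : newArc D I (.inl I.e1) = ray k 0 (I.τ / 2) I.τ := by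
        simp only [newArc, if_pos]
      rw [hC] at hw
      obtain ⟨r, hr0, hr1, hr⟩ := hw
      rcases w with y | i
      · right
        rcases D.ends _ _ hold with h3 | h3
        · rw [I.a1] at h3; exact absurd h3 y.2
        · simp only [newB]
          rw [← h3, up_inl]
      · fin_cases i
        · exfalso
          have hr' : D.pt v = cor k r 0 := hr
          rw [I.ptv] at hr'
          have := ray_inj hk le_rfl zero_le_one le_rfl zero_le_one (by linarith) (by linarith) hr'
          linarith
        · left; simp [newA]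
        · exfalso
          exact hne12 (Q_uniq D I hk _ hold)
    · by_cases he2 : e = I.e2
      · subst he2
        have hC : newArc D I (.inl I.e2) = ray k 1 (I.τ / 2) I.τ := by
          simp only [newArc, if_neg hne12.symm, if_pos]
        rw [hC] at hw
        obtain ⟨r, hr0, hr1, hr⟩ := hw
        rcases w with y | i
        · right
          rcases D.ends _ _ hold with h3 | h3
          · rw [I.a2] at h3; exact absurd h3 y.2
          · simp only [newB]
            rw [← h3, up_inl]
        · fin_cases i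
          · exfalso
            have hr' : D.pt v = cor k r 1 := hr
            rw [I.ptv, ← cor_zero_eq hk 1] at hr'
            have := ray_inj hk zero_le_one le_rfl le_rfl zero_le_one (by linarith) (by linarith) hr'
            linarith
          · exfalso
            exact hne12.symm (P_uniq D I hk _ hold)
          · left; simp [newA, hne12.symm]
      · simp only [newA, newB, if_neg he1, if_neg he2]
        rcases w with y | i
        · rcases D.ends _ _ hold with h3 | h3
          · left; rw [← h3, up_inl]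
          · right; rw [← h3, up_inl]
        · fin_cases i
          · have hold' : D.pt v ∈ D.arc e := hold
            rcases D.ends _ _ hold' with h3 | h3
            · left; rw [← h3, up_v]; rfl
            · right; rw [← h3, up_v]; rfl
          · exact absurd (P_uniq D I hk _ hold) he1
          · exact absurd (Q_uniq D I hk _ hold) he2
  · fin_cases i
    · -- inner part of the first ray
      have hold := newArc_inr0_subset D I hw
      obtain ⟨r, hr0, hr1, hr⟩ := hw
      rcases w with y | i
      · exfalso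
        rcases D.ends _ _ hold with h3 | h3
        · rw [I.a1] at h3; exact absurd h3 y.2
        · rw [I.b1] at h3
          have hr' : D.pt y = cor k r 0 := hr
          rw [h3, I.pt1] at hr'
          have := ray_inj hk le_rfl zero_le_one (by linarith) (by linarith) (by linarith)
            (by linarith) hr'
          linarith
      · fin_cases i
        · left; rfl
        · right; rfl
        · exfalso
          exact hne12 (Q_uniq D I hk _ hold)
    · have hold := newArc_inr1_subset D I hw
      obtain ⟨r, hr0, hr1, hr⟩ := hw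
      rcases w with y | i
      · exfalso
        rcases D.ends _ _ hold with h3 | h3
        · rw [I.a2] at h3; exact absurd h3 y.2
        · rw [I.b2] at h3
          have hr' : D.pt y = cor k r 1 := hr
          rw [h3, I.pt2] at hr'
          have := ray_inj hk zero_le_one le_rfl (by linarith) (by linarith) (by linarith)
            (by linarith) hr'
          linarith
      · fin_cases i
        · left; rfl
        · exfalso
          exact hne12.symm (P_uniq D I hk _ hold)
        · right; rfl
    · obtain ⟨l, hl0, hl1, hl⟩ := hw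
      rcases rung_pt D I hk hl0 hl1 w hl.symm with h3 | h3
      · left
        apply newPt_injective D I hk
        rw [hl, h3]
        rfl
      · right
        apply newPt_injective D I hk
        rw [hl, h3]
        rfl

lemma new_disj (h : Config G v x) (f f' : D.Ed ⊕ Fin 3) (hff : f ≠ f') :
    newArc D I f ∩ newArc D I f' ⊆ Set.range (newPt D I) := by
  have h0 := I.τpos
  have h1 := I.τle
  have hne12 := e1_ne_e2 D I h
  have hrange : Set.range D.pt ⊆ Set.range (newPt D I) := by
    rintro p ⟨y, rfl⟩
    exact ⟨up v y, newPt_up D I y⟩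
  -- rung against an old arc
  have hrung : ∀ p e, p ∈ rung k (I.τ / 2) → p ∈ D.arc e → p ∈ Set.range (newPt D I) := by
    rintro p e ⟨l, hl0, hl1, rfl⟩ hp
    rcases rung_old D I hk hl0 hl1 e hp with h3 | h3
    · exact ⟨.inr 1, by rw [h3]; rfl⟩
    · exact ⟨.inr 2, by rw [h3]; rfl⟩
  -- outer against inner part of the same ray
  have hsame1 : ∀ p, p ∈ newArc D I (.inl I.e1) → p ∈ newArc D I (.inr 0) →
      p ∈ Set.range (newPt D I) := by
    intro p hp hp'
    have hC : newArc D I (.inl I.e1) = ray k 0 (I.τ / 2) I.τ := by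
      simp only [newArc, if_pos]
    rw [hC] at hp
    obtain ⟨r, hr0, hr1, rfl⟩ := hp
    obtain ⟨r', hr0', hr1', hr'⟩ := hp'
    have := ray_inj hk le_rfl zero_le_one (by linarith) (by linarith) hr0' (by linarith) hr'
    have hr : r = I.τ / 2 := by linarith
    exact ⟨.inr 1, by rw [hr]; rfl⟩
  have hsame2 : ∀ p, p ∈ newArc D I (.inl I.e2) → p ∈ newArc D I (.inr 1) →
      p ∈ Set.range (newPt D I) := by
    intro p hp hp'
    have hC : newArc D I (.inl I.e2) = ray k 1 (I.τ / 2) I.τ := by
      simp only [newArc, if_neg hne12.symm, if_pos]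
    rw [hC] at hp
    obtain ⟨r, hr0, hr1, rfl⟩ := hp
    obtain ⟨r', hr0', hr1', hr'⟩ := hp'
    have := ray_inj hk zero_le_one le_rfl (by linarith) (by linarith) hr0' (by linarith) hr'
    have hr : r = I.τ / 2 := by linarith
    exact ⟨.inr 2, by rw [hr]; rfl⟩
  have hold : ∀ e e', e ≠ e' → ∀ p, p ∈ D.arc e → p ∈ D.arc e' → p ∈ Set.range (newPt D I) :=
    fun e e' hee p hp hp' => hrange (D.disj e e' hee ⟨hp, hp'⟩)
  -- old edge against a new one
  have hon : ∀ (e : D.Ed) (i : Fin 3) p, p ∈ newArc D I (.inl e) → p ∈ newArc D I (.inr i) →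
      p ∈ Set.range (newPt D I) := by
    intro e i p hp hp'
    fin_cases i
    · by_cases he1 : e = I.e1
      · subst he1
        exact hsame1 p hp hp'
      · exact hold e I.e1 he1 p (newArc_inl_subset D I e hp) (newArc_inr0_subset D I hp')
    · by_cases he2 : e = I.e2
      · subst he2
        exact hsame2 p hp hp'
      · exact hold e I.e2 he2 p (newArc_inl_subset D I e hp) (newArc_inr1_subset D I hp')
    · exact hrung p e hp' (newArc_inl_subset D I e hp)
  rintro p ⟨hp, hp'⟩
  rcases f with e | i <;> rcases f' with e' | i'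
  · refine hold e e' ?_ p (newArc_inl_subset D I e hp) (newArc_inl_subset D I e' hp')
    rintro rfl
    exact hff rfl
  · exact hon e i' p hp hp'
  · exact hon e' i p hp' hp
  · fin_cases i <;> fin_cases i'
    · exact absurd rfl hff
    · exact hold _ _ hne12 p (newArc_inr0_subset D I hp) (newArc_inr1_subset D I hp')
    · exact hrung p _ hp' (newArc_inr0_subset D I hp)
    · exact hold _ _ hne12.symm p (newArc_inr1_subset D I hp) (newArc_inr0_subset D I hp')
    · exact absurd rfl hff
    · exact hrung p _ hp' (newArc_inr1_subset D I hp)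
    · exact hrung p _ hp (newArc_inr0_subset D I hp')
    · exact hrung p _ hp (newArc_inr1_subset D I hp')
    · exact absurd rfl hff

/-- The new drawing. -/
noncomputable def newDr (h : Config G v x) : Dr (newG G v x) where
  Ed := D.Ed ⊕ Fin 3
  a := newA D I
  b := newB D I
  pt := newPt D I
  arc := newArc D I
  adj := new_adj D I h
  surj := new_surj D I h
  inj := new_inj D I
  pt_inj := newPt_injective D I hk
  isArc := new_isArc D I hk h
  ends := new_ends D I hk h
  disj := new_disj D I hk h

/-- The invariant for the new drawing. -/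
noncomputable def newInv (h : Config G v x) : Inv k (newDr D I hk h) (.inr 0) (newX h) where
  τ := I.τ / 2
  τpos := by have := I.τpos; linarith
  τle := by have := I.τpos; have := I.τle; linarith
  e1 := .inr 0
  e2 := .inr 1
  a1 := rfl
  b1 := rfl
  a2 := rfl
  b2 := rfl
  ptv := I.ptv
  pt1 := rfl
  pt2 := rfl
  arc1 := rfl
  arc2 := rfl
  free := by
    intro t l ht0 ht1 hl0 hl1 f hf
    have h0 := I.τpos
    have h1 := I.τle
    have hfree := I.free t l ht0 (by linarith) hl0 hl1
    rcases f with e | i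
    · exact hfree e (newArc_inl_subset D I e hf)
    · fin_cases i
      · exact hfree _ (newArc_inr0_subset D I hf)
      · exact hfree _ (newArc_inr1_subset D I hf)
      · obtain ⟨l', hl0', hl1', hl'⟩ := hf
        have := (cor_inj hk ht0.le (by linarith) (by linarith) (by linarith) hl0.le hl1.le
          hl0' hl1' hl').1
        linarith
  free' := by
    intro t l ht0 ht1 hl0 hl1 w hw
    have h0 := I.τpos
    have h1 := I.τle
    have hfree := I.free' t l ht0 (by linarith) hl0 hl1
    rcases w with y | i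
    · exact hfree y hw
    · fin_cases i
      · exact hfree v hw
      · have := (cor_inj hk ht0.le (by linarith) (by linarith) (by linarith) hl0.le hl1.le
          le_rfl zero_le_one hw).1
        linarith
      · have := (cor_inj hk ht0.le (by linarith) (by linarith) (by linarith) hl0.le hl1.le
          zero_le_one le_rfl hw).1
        linarith

lemma new_union (h : Config G v x) : D.union ⊆ (newDr D I hk h).union := by
  have h0 := I.τpos
  have hne12 := e1_ne_e2 D I h
  rintro p ⟨e, hp⟩
  by_cases he1 : e = I.e1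
  · subst he1
    rw [I.arc1] at hp
    obtain ⟨r, hr0, hr1, rfl⟩ := hp
    by_cases hr : r ≤ I.τ / 2
    · exact ⟨.inr 0, ⟨r, hr0, hr, rfl⟩⟩
    · refine ⟨.inl I.e1, ?_⟩
      show _ ∈ newArc D I (.inl I.e1)
      simp only [newArc, if_pos]
      exact ⟨r, by linarith, hr1, rfl⟩
  · by_cases he2 : e = I.e2
    · subst he2
      rw [I.arc2] at hp
      obtain ⟨r, hr0, hr1, rfl⟩ := hp
      by_cases hr : r ≤ I.τ / 2
      · exact ⟨.inr 1, ⟨r, hr0, hr, rfl⟩⟩
      · refine ⟨.inl I.e2, ?_⟩
        show _ ∈ newArc D I (.inl I.e2)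
        simp only [newArc, if_neg hne12.symm, if_pos]
        exact ⟨r, by linarith, hr1, rfl⟩
    · refine ⟨.inl e, ?_⟩
      show _ ∈ newArc D I (.inl e)
      simp only [newArc, if_neg he1, if_neg he2]
      exact hp

end

end Pool.Agent.MP_6bdc24_co
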