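import Pool.Agent.MP_6bdc24_co.Rep

/-!
The infinite family.
-/

namespace Pool.Agent.MP_6bdc24_co

/-- the invariant for the base drawing -/
noncomputable def baseInv {k : ℕ} (hk : 4 ≤ k) : Inv k (baseDr hk) (.inl 0) (baseX k) where
  τ := 1
  τpos := one_pos
  τle := le_rfl
  e1 := (0, 0)
  e2 := (0, 2)
  a1 := rfl
  b1 := by
    show Sum.inr (0 + dd k 0) = Sum.inr (dd k 0)
    rw [zero_add]
  a2 := rfl
  b2 := by
    show Sum.inr (0 + dd k 2) = Sum.inr (dd k 2)
    rw [zero_add]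
  ptv := by
    have : NeZero k := ⟨by omega⟩
    show basePt k (.inl 0) = cor k 0 0
    unfold basePt cor
    simp
  pt1 := by
    have : NeZero k := ⟨by omega⟩
    show basePt k (.inr (dd k 0)) = cor k 1 0
    have h := basePt_inr hk 0 0
    rw [zero_add] at h
    rw [h, cor_zero]
    simp
  pt2 := by
    have : NeZero k := ⟨by omega⟩
    show basePt k (.inr (dd k 2)) = cor k 1 1
    have h := basePt_inr hk 0 2
    rw [zero_add] at h
    rw [h, cor_one]
    simp
  arc1 := by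
    have : NeZero k := ⟨by omega⟩
    show baseArc k (0, 0) = ray k 0 0 1
    ext p
    unfold baseArc ray
    simp only [cor_zero]
    simp
  arc2 := by
    have : NeZero k := ⟨by omega⟩
    show baseArc k (0, 2) = ray k 1 0 1
    ext p
    unfold baseArc ray
    simp only [cor_one]
    simp
  free := by
    rintro t l ht0 ht1 hl0 hl1 ⟨g, i⟩ ⟨s, hs0, hs1, hs⟩
    exact cor_free hk ht0 ht1 hl0 hl1 i hs0 hs1 _ _ hs
  free' := by
    intro t l ht0 ht1 hl0 hl1 w hw
    rcases w with g | g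
    · exact cor_free hk ht0 ht1 hl0 hl1 0 le_rfl zero_le_one _ _ hw
    · exact cor_free hk ht0 ht1 hl0 hl1 0 zero_le_one le_rfl _ _ hw

/-- After `m` steps. -/
lemma family {k : ℕ} (hk : 4 ≤ k) (m : ℕ) :
    ∃ (V : Type) (_ : Finite V) (G : SimpleGraph V) (v : V) (x : Fin 3 → V) (D : Dr G),
      Config G v x ∧ G.IsEdgeConnected 3 ∧
      MinorAvoiding (completeBipartiteGraph (Fin 3) (Fin 3)) G v ∧
      (PerSet G).ncard ≤ (PerSet (baseG k)).ncard + m ∧
      Nat.card V = 2 * k ^ 2 + 2 * m ∧ Nonempty (Inv k D v x) ∧ grid k ⊆ D.union := by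
  have : NeZero k := ⟨by omega⟩
  induction m with
  | zero =>
    refine ⟨Gam k ⊕ Gam k, inferInstance, baseG k, .inl 0, baseX k, baseDr hk, baseConfig hk,
      base_edgeConnected hk, base_minor hk, le_rfl, ?_, ⟨baseInv hk⟩, grid_subset hk⟩
    rw [Nat.card_sum, Nat.card_prod, Nat.card_zmod]
    ring
  | succ m ih =>
    obtain ⟨V, hV, G, v, x, D, hC, hE, hM, hP, hcard, ⟨I⟩, hgrid⟩ := ih
    have hcard4 : 4 ≤ Nat.card V := by
      rw [hcard]
      nlinarith
    refine ⟨NewV v, inferInstance, newG G v x, .inr 0, newX hC, newDr D I hk hC, newConfig hC,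
      newG_edgeConnected hC hE, minor_step hM, ?_, ?_, ⟨newInv D I hk hC⟩,
      hgrid.trans (new_union D I hk hC)⟩
    · have := perSet_step hC hcard4
      omega
    · rw [Nat.card_sum, Nat.card_fin]
      classical
      have hF := Fintype.ofFinite V
      have h1 : Nat.card {y : V // y ≠ v} = Nat.card V - 1 := by
        rw [Nat.card_eq_fintype_card, Nat.card_eq_fintype_card, Fintype.card_subtype_compl,
          Fintype.card_subtype_eq]
      rw [h1]
      omega

lemma exists_large (K : ℕ) (a : ℕ) {c : ℝ} (hc : 1 < c) :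
    ∃ m : ℕ, ((K + m : ℕ) : ℝ) < c ^ (a + 2 * m) := by
  have h1 := tendsto_pow_const_div_const_pow_of_one_lt 0 hc
  have h2 := tendsto_pow_const_div_const_pow_of_one_lt 1 hc
  have h3 : Filter.Tendsto (fun n : ℕ => (K : ℝ) * ((n : ℝ) ^ 0 / c ^ n) + (n : ℝ) ^ 1 / c ^ n)
      Filter.atTop (nhds ((K : ℝ) * 0 + 0)) := (h1.const_mul _).add h2
  rw [mul_zero, add_zero] at h3
  have h4 := h3.eventually (gt_mem_nhds zero_lt_one)
  obtain ⟨N, hN⟩ := Filter.eventually_atTop.mp h4
  refine ⟨N, ?_⟩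
  have h5 := hN (a + 2 * N) (by omega)
  have hpos : (0 : ℝ) < c ^ (a + 2 * N) := by positivity
  have h6 : ((K : ℝ) * (((a + 2 * N : ℕ) : ℝ) ^ 0 / c ^ (a + 2 * N))
      + ((a + 2 * N : ℕ) : ℝ) ^ 1 / c ^ (a + 2 * N))
      = (K + ((a + 2 * N : ℕ) : ℝ)) / c ^ (a + 2 * N) := by
    field_simp
  rw [h6, div_lt_one hpos] at h5
  refine lt_of_le_of_lt ?_ h5
  push_cast
  have : (0 : ℝ) ≤ a := by positivity
  have : (0 : ℝ) ≤ N := by positivity
  linarith

end Pool.Agent.MP_6bdc24_co
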