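import Mathlib

/-!
Loops in the two-dimensional sphere are null-homotopic.
-/

namespace Pool.Agent.MP_6bdc24_co

open Metric Topology unitInterval Module

/-- building homotopies of paths by hand -/
lemma homotopic_of_fun {X : Type*} [TopologicalSpace X] {x y : X} {γ₀ γ₁ : Path x y}
    (F : I × I → X) (hF : Continuous F) (h0 : ∀ t, F (0, t) = γ₀ t) (h1 : ∀ t, F (1, t) = γ₁ t)
    (hl : ∀ s, F (s, 0) = x) (hr : ∀ s, F (s, 1) = y) : γ₀.Homotopic γ₁ := by
  refine ⟨{ toFun := F, continuous_toFun := hF, map_zero_left := h0, map_one_left := h1,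
            prop' := ?_ }⟩
  intro s t ht
  rcases ht with ht | ht
  · subst ht
    show F (s, 0) = γ₀ 0
    rw [hl, γ₀.source]
  · rw [Set.mem_singleton_iff] at ht
    subst ht
    show F (s, 1) = γ₀ 1
    rw [hr, γ₀.target]

abbrev E3 : Type := EuclideanSpace ℝ (Fin 3)

abbrev S2 : Type := sphere (0 : E3) 1

lemma loop_missing_point {x : S2} (γ : Path x x) (p : S2) (h : ∀ t, γ t ≠ p) :
    γ.Homotopic (Path.refl x) := by
  have hv : ‖(p : E3)‖ = 1 := by simp
  let φ := stereographic hv
  have hsrc : ∀ t, γ t ∈ φ.source := by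
    intro t
    rw [stereographic_source hv]
    intro h'
    exact h t (by rw [Set.mem_singleton_iff] at h'; rw [h'])
  have hcont : Continuous (fun t => φ (γ t)) :=
    φ.continuousOn.comp_continuous γ.continuous hsrc
  have hsymm : Continuous φ.symm := by
    have := φ.symm.continuousOn
    rw [φ.symm_source, stereographic_target hv] at this
    exact continuousOn_univ.mp this
  refine homotopic_of_fun (fun q => φ.symm ((1 - (q.1 : ℝ)) • φ (γ q.2) + (q.1 : ℝ) • φ x))
    ?_ ?_ ?_ ?_ ?_
  · refine hsymm.comp ?_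
    have h1 : Continuous (fun q : I × I => φ (γ q.2)) := hcont.comp continuous_snd
    have h2 : Continuous (fun q : I × I => (q.1 : ℝ)) := by fun_prop
    exact ((continuous_const.sub h2).smul h1).add (h2.smul continuous_const)
  · intro t
    simp [φ.left_inv (hsrc t)]
  · intro t
    have hx : φ.symm (φ x) = x := by
      have := hsrc 0
      rw [γ.source] at this
      exact φ.left_inv this
    simp [hx]
  · intro s
    have hx : φ.symm (φ x) = x := by
      have := hsrc 0
      rw [γ.source] at this
      exact φ.left_inv this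
    simp only [γ.source, ← add_smul]
    rw [sub_add_cancel, one_smul, hx]
  · intro s
    have hx : φ.symm (φ x) = x := by
      have := hsrc 0
      rw [γ.source] at this
      exact φ.left_inv this
    simp only [γ.target, ← add_smul]
    rw [sub_add_cancel, one_smul, hx]

/-- a polynomial curve together with all its multiples does not fill the space -/
lemma exists_missed_ray (n : ℕ) (c : Fin (n + 1) → E3) :
    ∃ q : E3, ∀ (r t : ℝ),
      r • (∑ k : Fin (n + 1), ((n.choose k : ℝ) * t ^ (k : ℕ) * (1 - t) ^ (n - (k : ℕ))) • c k) ≠ q := by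
  let f : ℝ × ℝ → E3 := fun u =>
    u.1 • (∑ k : Fin (n + 1), ((n.choose k : ℝ) * u.2 ^ (k : ℕ) * (1 - u.2) ^ (n - (k : ℕ))) • c k)
  have hf : ContDiff ℝ 1 f := by
    apply ContDiff.smul contDiff_fst
    apply ContDiff.sum
    intro k _
    have h1 : ContDiff ℝ 1 (fun x : ℝ × ℝ =>
        ((n.choose k : ℝ) * x.2 ^ (k : ℕ) * (1 - x.2) ^ (n - (k : ℕ)))) := by fun_prop
    exact h1.smul contDiff_const
  have hd : Dense (Set.range f)ᶜ := by
    apply hf.dense_compl_range_of_finrank_lt_finrank
    simp
  obtain ⟨q, hq⟩ := hd.nonempty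
  refine ⟨q, fun r t h => hq ⟨(r, t), h⟩⟩

/-- radial projection to the sphere -/
noncomputable def radial (v : E3) (hv : v ≠ 0) : S2 :=
  ⟨(‖v‖⁻¹ : ℝ) • v, by
    rw [mem_sphere_zero_iff_norm, norm_smul, norm_inv, norm_norm,
      inv_mul_cancel₀ (norm_ne_zero_iff.mpr hv)]⟩

lemma loop_null {x : S2} (γ : Path x x) : γ.Homotopic (Path.refl x) := by
  classical
  let f : C(I, E3) := ⟨fun t => (γ t : E3), by fun_prop⟩
  have hconv := bernsteinApproximation_uniform f
  rw [Metric.tendsto_atTop] at hconv
  obtain ⟨N, hN⟩ := hconv 1 one_pos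
  set n := N + 1 with hn
  have hclose : ∀ t, ‖bernsteinApproximation n f t - f t‖ < 1 := by
    intro t
    have h1 := hN n (by omega)
    have h2 := ContinuousMap.dist_lt_iff (f := bernsteinApproximation n f) (g := f) one_pos |>.mp h1 t
    rwa [dist_eq_norm] at h2
  have hf1 : ∀ t, ‖f t‖ = 1 := by
    intro t
    have := (γ t).2
    rwa [mem_sphere_zero_iff_norm] at this
  have hne : ∀ (s : I) (t : I), f t + (s : ℝ) • (bernsteinApproximation n f t - f t) ≠ 0 := by
    intro s t h0
    have h1 : ‖f t‖ = ‖(s : ℝ) • (bernsteinApproximation n f t - f t)‖ := by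
      have h5 := eq_neg_of_add_eq_zero_left h0
      rw [← norm_neg ((s : ℝ) • _), ← h5]
    rw [hf1, norm_smul, Real.norm_eq_abs, abs_of_nonneg s.2.1] at h1
    have h2 := hclose t
    have h3 := s.2.2
    have h4 := s.2.1
    nlinarith [norm_nonneg (bernsteinApproximation n f t - f t)]
  have hP0 : bernsteinApproximation n f 0 = x := by
    rw [bernsteinApproximation.apply_zero]
    show ((γ 0 : S2) : E3) = x
    rw [γ.source]
  have hP1 : bernsteinApproximation n f 1 = x := by
    rw [bernsteinApproximation.apply_one (by omega)]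
    show ((γ 1 : S2) : E3) = x
    rw [γ.target]
  have hf0 : f 0 = x := by
    show ((γ 0 : S2) : E3) = x
    rw [γ.source]
  have hf1' : f 1 = x := by
    show ((γ 1 : S2) : E3) = x
    rw [γ.target]
  have hPne : ∀ t, bernsteinApproximation n f t ≠ 0 := by
    intro t h0
    apply hne 1 t
    simp [h0]
  -- the homotopy
  let F : I × I → S2 := fun q =>
    radial (f q.2 + (q.1 : ℝ) • (bernsteinApproximation n f q.2 - f q.2)) (hne q.1 q.2)
  have hF : Continuous F := by
    apply Continuous.subtype_mk
    have hc : Continuous (fun q : I × I =>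
        f q.2 + (q.1 : ℝ) • (bernsteinApproximation n f q.2 - f q.2)) := by fun_prop
    exact (hc.norm.inv₀ (fun q => norm_ne_zero_iff.mpr (hne q.1 q.2))).smul hc
  have hx1 : ‖(x : E3)‖ = 1 := by
    have := x.2
    rwa [mem_sphere_zero_iff_norm] at this
  have hFx : ∀ s, F (s, 0) = x := by
    intro s
    apply Subtype.ext
    simp only [F, radial, hP0, hf0, sub_self, smul_zero, add_zero, hx1, inv_one, one_smul]
  have hFx' : ∀ s, F (s, 1) = x := by
    intro s
    apply Subtype.ext
    simp only [F, radial, hP1, hf1', sub_self, smul_zero, add_zero, hx1, inv_one, one_smul]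
  let g : Path x x :=
    { toFun := fun t => F (1, t)
      continuous_toFun := by fun_prop
      source' := hFx 1
      target' := hFx' 1 }
  have hγg : γ.Homotopic g := by
    refine homotopic_of_fun F hF ?_ (fun t => rfl) hFx hFx'
    intro t
    apply Subtype.ext
    simp only [F, radial, Set.Icc.coe_zero, zero_smul, add_zero, hf1, inv_one, one_smul]
    rfl
  refine hγg.trans ?_
  -- a missed point
  obtain ⟨q, hq⟩ := exists_missed_ray n (fun k => f (bernstein.z k))
  have hPsum : ∀ t : I, bernsteinApproximation n f t =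
      ∑ k : Fin (n + 1), ((n.choose k : ℝ) * (t : ℝ) ^ (k : ℕ) * (1 - (t : ℝ)) ^ (n - (k : ℕ))) •
        f (bernstein.z k) := by
    intro t
    rw [bernsteinApproximation.apply]
    refine Finset.sum_congr rfl (fun k _ => ?_)
    rw [bernstein_apply]
  have hq0 : q ≠ 0 := by
    rintro rfl
    apply hq 0 0
    rw [zero_smul]
  refine loop_missing_point g (radial q hq0) ?_
  intro t ht
  have h1 : (‖bernsteinApproximation n f t‖⁻¹ : ℝ) • bernsteinApproximation n f t
      = (‖q‖⁻¹ : ℝ) • q := by
    have := congrArg Subtype.val ht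
    simp only [g, F, radial, Path.coe_mk_mk, Set.Icc.coe_one, one_smul, add_sub_cancel] at this
    exact this
  apply hq (‖q‖ * ‖bernsteinApproximation n f t‖⁻¹) t
  rw [← hPsum, mul_smul, h1, smul_smul, mul_inv_cancel₀ (norm_ne_zero_iff.mpr hq0), one_smul]

end Pool.Agent.MP_6bdc24_co
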