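import Pool.Agent.MP_6bdc24_co.Defs
import Pool.Agent.MP_6bdc24_co.Sphere

/-!
The torus as a closed surface, different from the sphere, and lifting of its loops.
-/

namespace Pool.Agent.MP_6bdc24_co

open Topology unitInterval

/-- the torus -/
abbrev Torus : Type := UnitAddCircle × UnitAddCircle

lemma torus_closedSurface : IsClosedSurface Torus where
  compact := inferInstance
  hausdorff := inferInstance
  connected := inferInstance
  locallyPlane := by
    rintro ⟨a, b⟩
    obtain ⟨a', rfl⟩ := QuotientAddGroup.mk_surjective a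
    obtain ⟨b', rfl⟩ := QuotientAddGroup.mk_surjective b
    obtain ⟨e₁, h₁, he₁⟩ := AddCircle.isLocalHomeomorph_coe (1 : ℝ) a'
    obtain ⟨e₂, h₂, he₂⟩ := AddCircle.isLocalHomeomorph_coe (1 : ℝ) b'
    let e := e₁.prod e₂
    refine ⟨e.target, e.open_target, ?_, e.source, e.open_source,
      ⟨e.toHomeomorphSourceTarget.symm⟩⟩
    have h3 : ((a' : UnitAddCircle), (b' : UnitAddCircle)) = e (a', b') := by
      show _ = (e₁ a', e₂ b')
      rw [← he₁, ← he₂]
    show ((a' : UnitAddCircle), (b' : UnitAddCircle)) ∈ e.target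
    rw [h3]
    exact e.map_source ⟨h₁, h₂⟩

/-- lifting a loop of the circle -/
lemma exists_lift_circle {x : UnitAddCircle} (γ : C(I, UnitAddCircle)) (hx : γ 0 = x) :
    ∃ f : C(I, ℝ), ∀ t, ((f t : ℝ) : UnitAddCircle) = γ t := by
  obtain ⟨a, rfl⟩ := QuotientAddGroup.mk_surjective x
  have cov := AddCircle.isCoveringMap_coe (1 : ℝ)
  refine ⟨cov.liftPath γ a hx, fun t => ?_⟩
  exact congrFun (cov.liftPath_lifts γ a hx) t

/-- Loops of the torus which are not null-homotopic have non-closed lifts. -/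
lemma exists_lift_torus {x : Torus} (γ : Path x x) (h : ¬ γ.Homotopic (Path.refl x)) :
    ∃ f g : C(I, ℝ), (∀ t, (((f t : ℝ) : UnitAddCircle), ((g t : ℝ) : UnitAddCircle)) = γ t) ∧
      (f 1 ≠ f 0 ∨ g 1 ≠ g 0) := by
  obtain ⟨f, hf⟩ := exists_lift_circle (x := x.1) ⟨fun t => (γ t).1, by fun_prop⟩ (by simp)
  obtain ⟨g, hg⟩ := exists_lift_circle (x := x.2) ⟨fun t => (γ t).2, by fun_prop⟩ (by simp)
  have hfg : ∀ t, (((f t : ℝ) : UnitAddCircle), ((g t : ℝ) : UnitAddCircle)) = γ t := by
    intro t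
    rw [hf, hg]
    rfl
  refine ⟨f, g, hfg, ?_⟩
  by_contra hcon
  push Not at hcon
  obtain ⟨h1, h2⟩ := hcon
  apply h
  have hx : (((f 0 : ℝ) : UnitAddCircle), ((g 0 : ℝ) : UnitAddCircle)) = x := by
    rw [hfg, γ.source]
  refine homotopic_of_fun (fun q =>
    ((((1 - (q.1 : ℝ)) * f q.2 + (q.1 : ℝ) * f 0 : ℝ) : UnitAddCircle),
      (((1 - (q.1 : ℝ)) * g q.2 + (q.1 : ℝ) * g 0 : ℝ) : UnitAddCircle))) ?_ ?_ ?_ ?_ ?_
  · apply Continuous.prodMk
    · exact (AddCircle.isLocalHomeomorph_coe (1 : ℝ)).continuous.comp (by fun_prop)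
    · exact (AddCircle.isLocalHomeomorph_coe (1 : ℝ)).continuous.comp (by fun_prop)
  · intro t
    rw [← hfg]
    simp
  · intro t
    rw [Path.refl_apply, ← hx]
    simp
  · intro s
    rw [← hx]
    simp only
    ring_nf
  · intro s
    rw [← hx]
    simp only [h1, h2]
    ring_nf

/-- the standard loop of the torus -/
noncomputable def stdLoop : Path (0 : Torus) (0 : Torus) where
  toFun t := (((t : ℝ) : UnitAddCircle), 0)
  continuous_toFun := by
    apply Continuous.prodMk
    · exact (AddCircle.isLocalHomeomorph_coe (1 : ℝ)).continuous.comp (by fun_prop)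
    · exact continuous_const
  source' := by simp
  target' := by
    simp only [Set.Icc.coe_one]
    have : ((1 : ℝ) : UnitAddCircle) = 0 := AddCircle.coe_period 1
    rw [this]
    rfl

lemma stdLoop_not_null : ¬ stdLoop.Homotopic (Path.refl (0 : Torus)) := by
  rintro ⟨H⟩
  have cov := AddCircle.isCoveringMap_coe (1 : ℝ)
  let γ₀ : C(I, UnitAddCircle) := ⟨fun t => ((t : ℝ) : UnitAddCircle),
    (AddCircle.isLocalHomeomorph_coe (1 : ℝ)).continuous.comp (by fun_prop)⟩
  let γ₁ : C(I, UnitAddCircle) := ContinuousMap.const I 0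
  have hrel : γ₀.HomotopicRel γ₁ {0, 1} := by
    refine ⟨{ toFun := fun q => (H q).1, continuous_toFun := by fun_prop,
              map_zero_left := ?_, map_one_left := ?_, prop' := ?_ }⟩
    · intro t
      have := H.map_zero_left t
      exact congrArg Prod.fst this
    · intro t
      have := H.map_one_left t
      exact congrArg Prod.fst this
    · intro s t ht
      have := H.prop' s t ht
      exact congrArg Prod.fst this
  have h0 : γ₀ 0 = ((0 : ℝ) : UnitAddCircle) := by simp [γ₀]
  have h1 : γ₁ 0 = ((0 : ℝ) : UnitAddCircle) := by simp [γ₁]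
  have key := cov.liftPath_apply_one_eq_of_homotopicRel hrel (0 : ℝ) h0 h1
  have e0 : (⟨fun t => (t : ℝ), by fun_prop⟩ : C(I, ℝ)) = cov.liftPath γ₀ 0 h0 := by
    rw [cov.eq_liftPath_iff']
    refine ⟨?_, by simp⟩
    rfl
  have e1 : (ContinuousMap.const I (0 : ℝ)) = cov.liftPath γ₁ 0 h1 := by
    rw [cov.eq_liftPath_iff']
    refine ⟨?_, by simp⟩
    funext t
    simp [γ₁]
  rw [← e0, ← e1] at key
  simp at key

lemma torus_ne_sphere :
    IsEmpty (Torus ≃ₜ Metric.sphere (0 : EuclideanSpace ℝ (Fin 3)) 1) := by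
  refine ⟨fun e => stdLoop_not_null ?_⟩
  have h1 : (stdLoop.map e.continuous).Homotopic (Path.refl (e 0)) := loop_null _
  obtain ⟨H⟩ := h1
  refine homotopic_of_fun (fun q => e.symm (H q)) (by fun_prop) ?_ ?_ ?_ ?_
  · intro t
    have := H.map_zero_left t
    rw [show H (0, t) = _ from this]
    simp
  · intro t
    have := H.map_one_left t
    rw [show H (1, t) = _ from this]
    simp
  · intro s
    have := H.prop' s 0 (by simp)
    rw [show H (s, 0) = _ from this]
    simp
  · intro s
    have := H.prop' s 1 (by simp)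
    rw [show H (s, 1) = _ from this]
    simp

end Pool.Agent.MP_6bdc24_co
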