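import Pool.Agent.MP_6bdc24_co.Base
import Pool.Agent.MP_6bdc24_co.Torus

/-!
Plane geometry behind the drawing of the hexagonal graph on the torus.
-/

namespace Pool.Agent.MP_6bdc24_co

open unitInterval

/-- the (scaled) projection of the plane to the torus -/
noncomputable def prj (k : ℕ) (x y : ℝ) : Torus :=
  (((x / k : ℝ) : UnitAddCircle), ((y / k : ℝ) : UnitAddCircle))

lemma coe_eq_iff_int {u u' : ℝ} : ((u : ℝ) : UnitAddCircle) = (u' : ℝ) ↔ ∃ n : ℤ, u - u' = n := by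
  rw [← sub_eq_zero, ← AddCircle.coe_sub, AddCircle.coe_eq_zero_iff]
  constructor
  · rintro ⟨n, hn⟩
    exact ⟨n, by rw [← hn]; simp⟩
  · rintro ⟨n, hn⟩
    exact ⟨n, by rw [hn]; simp⟩

lemma prj_eq_iff {k : ℕ} (hk : 0 < k) {x y x' y' : ℝ} : prj k x y = prj k x' y' ↔
    ∃ m n : ℤ, x - x' = k * m ∧ y - y' = k * n := by
  have hk' : (k : ℝ) ≠ 0 := by positivity
  unfold prj
  rw [Prod.mk.injEq, coe_eq_iff_int, coe_eq_iff_int]
  constructor
  · rintro ⟨⟨m, hm⟩, ⟨n, hn⟩⟩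
    refine ⟨m, n, ?_, ?_⟩
    · rw [← hm]; field_simp
    · rw [← hn]; field_simp
  · rintro ⟨m, n, hm, hn⟩
    refine ⟨⟨m, ?_⟩, ⟨n, ?_⟩⟩
    · rw [← sub_div, hm]; field_simp
    · rw [← sub_div, hn]; field_simp

lemma prj_continuous (k : ℕ) : Continuous (fun u : ℝ × ℝ => prj k u.1 u.2) := by
  unfold prj
  apply Continuous.prodMk
  · exact (AddCircle.isLocalHomeomorph_coe (1 : ℝ)).continuous.comp (by fun_prop)
  · exact (AddCircle.isLocalHomeomorph_coe (1 : ℝ)).continuous.comp (by fun_prop)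

/-- the three directions -/
noncomputable def AX : Fin 3 → ℝ := ![-1 / 3, -1 / 3, 2 / 3]
noncomputable def AY : Fin 3 → ℝ := ![1 / 3, -2 / 3, 1 / 3]

def DX : Fin 3 → ℤ := ![0, 0, 1]
def DY : Fin 3 → ℤ := ![0, -1, 0]

lemma bound_int {r : ℝ} {N : ℤ} (h : r = N) (h1 : -1 ≤ r) (h2 : r ≤ 1) : N = -1 ∨ N = 0 ∨ N = 1 := by
  rw [h] at h1 h2
  have h3 : (-1 : ℤ) ≤ N := by exact_mod_cast h1
  have h4 : N ≤ 1 := by exact_mod_cast h2
  omega

lemma sepZ (i j : Fin 3) {s s' : ℝ} (hs0 : 0 ≤ s) (hs1 : s ≤ 1) (hs'0 : 0 ≤ s') (hs'1 : s' ≤ 1)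
    {N1 N2 : ℤ} (h1 : s' * AX j - s * AX i = N1) (h2 : s' * AY j - s * AY i = N2) :
    s = s' ∧ ((s = 0 ∧ N1 = 0 ∧ N2 = 0) ∨ (s = 1 ∧ N1 = DX j - DX i ∧ N2 = DY j - DY i) ∨
      (i = j ∧ N1 = 0 ∧ N2 = 0)) := by
  have hAX : ∀ i, -1 / 3 ≤ AX i ∧ AX i ≤ 2 / 3 := by
    intro i; fin_cases i <;> norm_num [AX]
  have hAY : ∀ i, -2 / 3 ≤ AY i ∧ AY i ≤ 1 / 3 := by
    intro i; fin_cases i <;> norm_num [AY]
  have hN1 : N1 = -1 ∨ N1 = 0 ∨ N1 = 1 := by
    apply bound_int h1 <;> nlinarith [hAX i, hAX j]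
  have hN2 : N2 = -1 ∨ N2 = 0 ∨ N2 = 1 := by
    apply bound_int h2 <;> nlinarith [hAY i, hAY j]
  fin_cases i <;> fin_cases j <;> simp [AX, AY] at h1 h2 <;>
    rcases hN1 with rfl | rfl | rfl <;> rcases hN2 with rfl | rfl | rfl <;>
    norm_num at h1 h2
  all_goals first
    | (exfalso; linarith)
    | exact ⟨by linarith, Or.inr (Or.inr ⟨rfl, rfl, rfl⟩)⟩
    | exact ⟨by linarith, Or.inl ⟨by linarith, rfl, rfl⟩⟩
    | exact ⟨by linarith, Or.inr (Or.inl ⟨by linarith, by norm_num [DX], by norm_num [DY]⟩)⟩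

lemma dd_eq (k : ℕ) (i : Fin 3) : dd k i = ((DX i : ZMod k), (DY i : ZMod k)) := by
  fin_cases i <;> simp [dd, DX, DY]

/-- separation of the points on two edges -/
lemma sep {k : ℕ} (hk : 0 < k) (i j : Fin 3) {s s' : ℝ} (hs0 : 0 ≤ s) (hs1 : s ≤ 1) (hs'0 : 0 ≤ s')
    (hs'1 : s' ≤ 1) {n1 n2 n1' n2' : ℤ}
    (h : prj k (n1 + s * AX i) (n2 + s * AY i) = prj k (n1' + s' * AX j) (n2' + s' * AY j)) :
    s = s' ∧ ((s = 0 ∧ ((n1 : ZMod k), (n2 : ZMod k)) = ((n1' : ZMod k), (n2' : ZMod k))) ∨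
      (s = 1 ∧ ((n1 : ZMod k), (n2 : ZMod k)) + dd k i = ((n1' : ZMod k), (n2' : ZMod k)) + dd k j) ∨
      (i = j ∧ ((n1 : ZMod k), (n2 : ZMod k)) = ((n1' : ZMod k), (n2' : ZMod k)))) := by
  obtain ⟨m1, m2, h1, h2⟩ := (prj_eq_iff hk).mp h
  have e1 : s' * AX j - s * AX i = ((n1 - n1' - k * m1 : ℤ) : ℝ) := by
    push_cast; linarith
  have e2 : s' * AY j - s * AY i = ((n2 - n2' - k * m2 : ℤ) : ℝ) := by
    push_cast; linarith
  have c1 : ((n1 - n1' - k * m1 : ℤ) : ZMod k) = (n1 : ZMod k) - n1' := by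
    push_cast; simp
  have c2 : ((n2 - n2' - k * m2 : ℤ) : ZMod k) = (n2 : ZMod k) - n2' := by
    push_cast; simp
  obtain ⟨hss, hc⟩ := sepZ i j hs0 hs1 hs'0 hs'1 e1 e2
  refine ⟨hss, ?_⟩
  rcases hc with ⟨h0, hN1, hN2⟩ | ⟨h0, hN1, hN2⟩ | ⟨h0, hN1, hN2⟩
  · left
    refine ⟨h0, ?_⟩
    rw [hN1] at c1
    rw [hN2] at c2
    ext
    · exact (sub_eq_zero.mp (by simpa using c1.symm))
    · exact (sub_eq_zero.mp (by simpa using c2.symm))
  · right; left
    refine ⟨h0, ?_⟩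
    rw [hN1] at c1
    rw [hN2] at c2
    rw [dd_eq, dd_eq]
    push_cast at c1 c2
    ext
    · simp only [Prod.fst_add]
      linear_combination -c1
    · simp only [Prod.snd_add]
      linear_combination -c2
  · right; right
    refine ⟨h0, ?_⟩
    rw [hN1] at c1
    rw [hN2] at c2
    ext
    · exact (sub_eq_zero.mp (by simpa using c1.symm))
    · exact (sub_eq_zero.mp (by simpa using c2.symm))

/-- the corner at the special vertex between the directions `0` and `2` -/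
noncomputable def cor (k : ℕ) (t l : ℝ) : Torus := prj k (t * (l - 1 / 3)) (t * (1 / 3))

lemma cor_zero (k : ℕ) (t : ℝ) : cor k t 0 = prj k (((0 : ℤ) : ℝ) + t * AX 0) (((0 : ℤ) : ℝ) + t * AY 0) := by
  unfold cor
  simp only [AX, AY, Matrix.cons_val_zero]
  congr 1 <;> push_cast <;> ring

lemma cor_one (k : ℕ) (t : ℝ) : cor k t 1 = prj k (((0 : ℤ) : ℝ) + t * AX 2) (((0 : ℤ) : ℝ) + t * AY 2) := by
  unfold cor
  simp only [AX, AY, Matrix.cons_val]
  congr 1 <;> push_cast <;> ring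

lemma cor_inj {k : ℕ} (hk : 4 ≤ k) {t l t' l' : ℝ} (ht0 : 0 ≤ t) (ht1 : t ≤ 1) (ht'0 : 0 ≤ t')
    (ht'1 : t' ≤ 1) (hl0 : 0 ≤ l) (hl1 : l ≤ 1) (hl'0 : 0 ≤ l') (hl'1 : l' ≤ 1)
    (h : cor k t l = cor k t' l') : t = t' ∧ (t = 0 ∨ l = l') := by
  obtain ⟨m, n, h1, h2⟩ := (prj_eq_iff (by omega)).mp h
  have hk' : (4 : ℝ) ≤ k := by exact_mod_cast hk
  have hn : n = 0 := by
    have a1 : (n : ℝ) < 1 := by
      by_contra hcon
      push Not at hcon
      nlinarith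
    have a2 : (-1 : ℝ) < n := by
      by_contra hcon
      push Not at hcon
      nlinarith
    have a3 : n < 1 := by exact_mod_cast a1
    have a4 : -1 < n := by exact_mod_cast a2
    omega
  rw [hn] at h2
  have htt : t = t' := by
    have : t * (1 / 3) - t' * (1 / 3) = 0 := by simpa using h2
    linarith
  subst htt
  refine ⟨rfl, ?_⟩
  have h3 : t * (l - l') = k * m := by linarith
  have hm : m = 0 := by
    have b1 : t * (l - l') ≤ 1 := by nlinarith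
    have b2 : -1 ≤ t * (l - l') := by nlinarith
    have a1 : (m : ℝ) < 1 := by
      by_contra hcon
      push Not at hcon
      nlinarith
    have a2 : (-1 : ℝ) < m := by
      by_contra hcon
      push Not at hcon
      nlinarith
    have a3 : m < 1 := by exact_mod_cast a1
    have a4 : -1 < m := by exact_mod_cast a2
    omega
  rw [hm] at h3
  have h4 : t * (l - l') = 0 := by simpa using h3
  rcases mul_eq_zero.mp h4 with h5 | h5
  · left; exact h5
  · right; linarith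

/-- the open corner avoids all edges -/
lemma cor_free {k : ℕ} (hk : 4 ≤ k) {t l : ℝ} (ht0 : 0 < t) (ht1 : t < 1) (hl0 : 0 < l) (hl1 : l < 1)
    (j : Fin 3) {s : ℝ} (hs0 : 0 ≤ s) (hs1 : s ≤ 1) (n1 n2 : ℤ) :
    cor k t l ≠ prj k (n1 + s * AX j) (n2 + s * AY j) := by
  intro h
  obtain ⟨m1, m2, h1, h2⟩ := (prj_eq_iff (by omega)).mp h
  have e1 : t * (l - 1 / 3) - s * AX j = ((n1 + k * m1 : ℤ) : ℝ) := by push_cast; linarith
  have e2 : t * (1 / 3) - s * AY j = ((n2 + k * m2 : ℤ) : ℝ) := by push_cast; linarith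
  have htl : 0 < t * l := by positivity
  have htl' : 0 < t * (1 - l) := by
    have : 0 < 1 - l := by linarith
    positivity
  fin_cases j
  · -- direction 0
    simp only [AX, AY, Fin.zero_eta, Matrix.cons_val_zero] at e1 e2
    have hz : (n2 + k * m2 : ℤ) = 0 := by
      have a1 : ((n2 + k * m2 : ℤ) : ℝ) < 1 := by rw [← e2]; linarith
      have a2 : (-1 : ℝ) < ((n2 + k * m2 : ℤ) : ℝ) := by rw [← e2]; linarith
      have a3 : (n2 + k * m2 : ℤ) < 1 := by exact_mod_cast a1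
      have a4 : -1 < (n2 + k * m2 : ℤ) := by exact_mod_cast a2
      omega
    rw [hz] at e2
    have hst : s = t := by
      have : t * (1 / 3) - s * (1 / 3) = 0 := by simpa using e2
      linarith
    subst hst
    have a1 : ((n1 + k * m1 : ℤ) : ℝ) < 1 := by rw [← e1]; nlinarith
    have a2 : (0 : ℝ) < ((n1 + k * m1 : ℤ) : ℝ) := by rw [← e1]; nlinarith
    have a3 : (n1 + k * m1 : ℤ) < 1 := by exact_mod_cast a1
    have a4 : 0 < (n1 + k * m1 : ℤ) := by exact_mod_cast a2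
    omega
  · -- direction 1
    simp only [AX, AY, Fin.mk_one, Matrix.cons_val_one, Matrix.cons_val_zero] at e1 e2
    have a1 : ((n2 + k * m2 : ℤ) : ℝ) < 1 := by rw [← e2]; linarith
    have a2 : (0 : ℝ) < ((n2 + k * m2 : ℤ) : ℝ) := by rw [← e2]; linarith
    have a3 : (n2 + k * m2 : ℤ) < 1 := by exact_mod_cast a1
    have a4 : 0 < (n2 + k * m2 : ℤ) := by exact_mod_cast a2
    omega
  · -- direction 2
    simp only [AX, AY, Fin.reduceFinMk, Matrix.cons_val] at e1 e2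
    have hz : (n2 + k * m2 : ℤ) = 0 := by
      have a1 : ((n2 + k * m2 : ℤ) : ℝ) < 1 := by rw [← e2]; linarith
      have a2 : (-1 : ℝ) < ((n2 + k * m2 : ℤ) : ℝ) := by rw [← e2]; linarith
      have a3 : (n2 + k * m2 : ℤ) < 1 := by exact_mod_cast a1
      have a4 : -1 < (n2 + k * m2 : ℤ) := by exact_mod_cast a2
      omega
    rw [hz] at e2
    have hst : s = t := by
      have : t * (1 / 3) - s * (1 / 3) = 0 := by simpa using e2
      linarith
    subst hst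
    have a1 : ((n1 + k * m1 : ℤ) : ℝ) < 0 := by rw [← e1]; nlinarith
    have a2 : (-1 : ℝ) < ((n1 + k * m1 : ℤ) : ℝ) := by rw [← e1]; nlinarith
    have a3 : (n1 + k * m1 : ℤ) < 0 := by exact_mod_cast a1
    have a4 : -1 < (n1 + k * m1 : ℤ) := by exact_mod_cast a2
    omega

end Pool.Agent.MP_6bdc24_co
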