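import Pool.Agent.MP_6bdc24_co.DrawStep

/-!
Noncontractible loops of the torus meet the hexagonal grid often.
-/

namespace Pool.Agent.MP_6bdc24_co

open unitInterval

/-- the point set of the hexagonal grid -/
def grid (k : ℕ) : Set Torus :=
  {p | ∃ (n1 n2 : ℤ) (i : Fin 3) (s : ℝ), 0 ≤ s ∧ s ≤ 1 ∧
    p = prj k (n1 + s * AX i) (n2 + s * AY i)}

lemma grid_subset {k : ℕ} (hk : 4 ≤ k) : grid k ⊆ (baseDr hk).union := by
  have : NeZero k := ⟨by omega⟩
  rintro p ⟨n1, n2, i, s, hs0, hs1, rfl⟩
  refine ⟨(((n1 : ZMod k), (n2 : ZMod k)), i), s, hs0, hs1, ?_⟩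
  rw [prj_eq_iff (by omega)]
  have h1 : ((((n1 : ZMod k)).val : ℤ) : ZMod k) = ((n1 : ℤ) : ZMod k) := by simp
  have h2 : ((((n2 : ZMod k)).val : ℤ) : ZMod k) = ((n2 : ℤ) : ZMod k) := by simp
  rw [ZMod.intCast_eq_intCast_iff_dvd_sub] at h1 h2
  obtain ⟨m, hm⟩ := h1
  obtain ⟨n, hn⟩ := h2
  refine ⟨m, n, ?_, ?_⟩
  · have : ((n1 - (n1 : ZMod k).val : ℤ) : ℝ) = ((k * m : ℤ) : ℝ) := by
      exact_mod_cast congrArg (fun z : ℤ => (z : ℝ)) hm
    push_cast at this ⊢
    linarith
  · have : ((n2 - (n2 : ZMod k).val : ℤ) : ℝ) = ((k * n : ℤ) : ℝ) := by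
      exact_mod_cast congrArg (fun z : ℤ => (z : ℝ)) hn
    push_cast at this ⊢
    linarith

/-- counting crossings by the intermediate value theorem -/
lemma count_crossings {k : ℕ} (hk : 0 < k) (γ : I → Torus) (S : Set Torus) (F : I → ℝ)
    (hF : Continuous F) {m : ℤ} (hm : m ≠ 0) (h01 : F 1 - F 0 = k * m)
    (hcong : ∀ t t', γ t = γ t' → ∃ n : ℤ, F t - F t' = k * n)
    (hS : ∀ t (N : ℤ), F t = N → γ t ∈ S) : (k : ℕ∞) ≤ (Set.range γ ∩ S).encard := by
  have hk' : (0 : ℝ) < k := by exact_mod_cast hk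
  -- values taken
  obtain ⟨N₀, hN₀⟩ : ∃ N₀ : ℤ, ∀ j : Fin k, ∃ t, F t = ((N₀ + (j : ℕ) : ℤ) : ℝ) := by
    rcases lt_or_gt_of_ne hm with hneg | hpos
    · refine ⟨⌈F 1⌉, fun j => ?_⟩
      have hm1 : (m : ℝ) ≤ -1 := by
        have : m ≤ -1 := by omega
        exact_mod_cast this
      have h1 : F 1 ≤ ((⌈F 1⌉ + (j : ℕ) : ℤ) : ℝ) := by
        push_cast
        have := Int.le_ceil (F 1)
        have : (0 : ℝ) ≤ (j : ℕ) := by positivity
        linarith
      have h2 : ((⌈F 1⌉ + (j : ℕ) : ℤ) : ℝ) ≤ F 0 := by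
        push_cast
        have h3 := Int.ceil_lt_add_one (F 1)
        have h4 : ((j : ℕ) : ℝ) + 1 ≤ k := by exact_mod_cast j.2
        nlinarith
      exact mem_range_of_exists_le_of_exists_ge hF ⟨1, h1⟩ ⟨0, h2⟩
    · refine ⟨⌈F 0⌉, fun j => ?_⟩
      have hm1 : (1 : ℝ) ≤ m := by
        have : 1 ≤ m := by omega
        exact_mod_cast this
      have h1 : F 0 ≤ ((⌈F 0⌉ + (j : ℕ) : ℤ) : ℝ) := by
        push_cast
        have := Int.le_ceil (F 0)
        have : (0 : ℝ) ≤ (j : ℕ) := by positivity
        linarith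
      have h2 : ((⌈F 0⌉ + (j : ℕ) : ℤ) : ℝ) ≤ F 1 := by
        push_cast
        have h3 := Int.ceil_lt_add_one (F 0)
        have h4 : ((j : ℕ) : ℝ) + 1 ≤ k := by exact_mod_cast j.2
        nlinarith
      exact mem_range_of_exists_le_of_exists_ge hF ⟨0, h1⟩ ⟨1, h2⟩
  choose t ht using hN₀
  have hinj : Function.Injective (fun j : Fin k => γ (t j)) := by
    intro j j' hjj
    obtain ⟨n, hn⟩ := hcong _ _ hjj
    rw [ht, ht] at hn
    have h1 : ((j : ℕ) : ℤ) - ((j' : ℕ) : ℤ) = k * n := by
      have : (((j : ℕ) : ℤ) - ((j' : ℕ) : ℤ) : ℝ) = ((k * n : ℤ) : ℝ) := by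
        push_cast at hn ⊢
        linarith
      exact_mod_cast this
    have hj := j.2
    have hj' := j'.2
    have hn0 : n = 0 := by
      by_contra hne
      rcases lt_or_gt_of_ne hne with h | h
      · have : n ≤ -1 := by omega
        nlinarith
      · have : 1 ≤ n := by omega
        nlinarith
    rw [hn0, mul_zero] at h1
    apply Fin.ext
    omega
  have hsub : Set.range (fun j : Fin k => γ (t j)) ⊆ Set.range γ ∩ S := by
    rintro p ⟨j, rfl⟩
    exact ⟨⟨_, rfl⟩, hS _ _ (ht j)⟩
  have hcard : (Set.range (fun j : Fin k => γ (t j))).encard = k := by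
    rw [← Set.image_univ, hinj.encard_image, Set.encard_univ]
    simp
  rw [← hcard]
  exact Set.encard_le_encard hsub

/-- the shape of the zigzags -/
noncomputable def zf (y : ℝ) : ℝ := -(min (Int.fract y) ((1 - Int.fract y) / 2))

/-- the shape of the transverse lines -/
noncomputable def wf (x : ℝ) : ℝ := min (Int.fract x / 2) (1 - Int.fract x)

lemma zf_continuous : Continuous zf := by
  have h : ContinuousOn (fun u : ℝ => -(min u ((1 - u) / 2))) (Set.Icc 0 1) := by
    apply Continuous.continuousOn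
    fun_prop
  exact h.comp_fract'' (by norm_num)

lemma wf_continuous : Continuous wf := by
  have h : ContinuousOn (fun u : ℝ => min (u / 2) (1 - u)) (Set.Icc 0 1) := by
    apply Continuous.continuousOn
    fun_prop
  exact h.comp_fract'' (by norm_num)

lemma zf_add (y : ℝ) (n : ℤ) : zf (y + n) = zf y := by
  unfold zf
  rw [Int.fract_add_intCast]

lemma wf_add (y : ℝ) (n : ℤ) : wf (y + n) = wf y := by
  unfold wf
  rw [Int.fract_add_intCast]

lemma zf_grid {k : ℕ} (y : ℝ) (N : ℤ) : prj k (N + zf y) y ∈ grid k := by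
  have h0 := Int.fract_nonneg y
  have h1 := Int.fract_lt_one y
  have hy : y = ⌊y⌋ + Int.fract y := (Int.floor_add_fract y).symm
  by_cases hu : Int.fract y ≤ 1 / 3
  · have hz : zf y = -Int.fract y := by
      unfold zf
      rw [min_eq_left (by linarith)]
    refine ⟨N, ⌊y⌋, 0, 3 * Int.fract y, by linarith, by linarith, ?_⟩
    rw [hz]
    simp only [AX, AY, Matrix.cons_val_zero]
    congr 1
    · ring
    · linarith
  · push Not at hu
    have hz : zf y = -((1 - Int.fract y) / 2) := by
      unfold zf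
      rw [min_eq_right (by linarith)]
    refine ⟨N, ⌊y⌋ + 1, 1, 3 * (1 - Int.fract y) / 2, by linarith, by linarith, ?_⟩
    rw [hz]
    simp only [AX, AY, Matrix.cons_val_one, Matrix.cons_val_zero]
    congr 1
    · ring
    · push_cast
      linarith

lemma wf_grid {k : ℕ} (x : ℝ) (N : ℤ) : prj k x (N + wf x) ∈ grid k := by
  have h0 := Int.fract_nonneg x
  have h1 := Int.fract_lt_one x
  have hx : x = ⌊x⌋ + Int.fract x := (Int.floor_add_fract x).symm
  by_cases hu : Int.fract x ≤ 2 / 3
  · have hz : wf x = Int.fract x / 2 := by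
      unfold wf
      rw [min_eq_left (by linarith)]
    refine ⟨⌊x⌋, N, 2, 3 * Int.fract x / 2, by linarith, by linarith, ?_⟩
    rw [hz]
    simp only [AX, AY, Matrix.cons_val]
    congr 1
    · linarith
    · ring
  · push Not at hu
    have hz : wf x = 1 - Int.fract x := by
      unfold wf
      rw [min_eq_right (by linarith)]
    refine ⟨⌊x⌋ + 1, N, 0, 3 * (1 - Int.fract x), by linarith, by linarith, ?_⟩
    rw [hz]
    simp only [AX, AY, Matrix.cons_val_zero]
    congr 1
    · push_cast
      linarith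
    · ring

/-- A loop of the torus which is not null-homotopic meets the grid in at least `k` points. -/
lemma grid_meets {k : ℕ} (hk : 4 ≤ k) {x : Torus} (γ : Path x x)
    (h : ¬ γ.Homotopic (Path.refl x)) : (k : ℕ∞) ≤ (Set.range γ ∩ grid k).encard := by
  obtain ⟨f, g, hfg, hne⟩ := exists_lift_torus γ h
  have hk0 : (0 : ℝ) < k := by exact_mod_cast (by omega : 0 < k)
  have hprj : ∀ t, γ t = prj k (k * f t) (k * g t) := by
    intro t
    rw [← hfg t]
    unfold prj
    congr 2
    · field_simp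
    · field_simp
  have hloop : γ 1 = γ 0 := by rw [γ.source, γ.target]
  rw [hprj, hprj, prj_eq_iff (by omega)] at hloop
  obtain ⟨m, n, hm, hn⟩ := hloop
  rcases hne with hne | hne
  · have hm0 : m ≠ 0 := by
      rintro rfl
      apply hne
      have : (k : ℝ) * (f 1 - f 0) = 0 := by
        have := hm
        push_cast at this
        linarith
      rcases mul_eq_zero.mp this with h1 | h1
      · exact absurd h1 hk0.ne'
      · linarith
    refine count_crossings (by omega) γ (grid k) (fun t => k * f t - zf (k * g t)) ?_ hm0 ?_ ?_ ?_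
    · have := zf_continuous
      fun_prop
    · have h1 : (k : ℝ) * g 1 = k * g 0 + ((k * n : ℤ) : ℝ) := by
        push_cast
        linarith
      rw [h1, zf_add]
      linarith
    · intro t t' htt
      rw [hprj, hprj, prj_eq_iff (by omega)] at htt
      obtain ⟨m', n', hm', hn'⟩ := htt
      refine ⟨m', ?_⟩
      have h1 : (k : ℝ) * g t = k * g t' + ((k * n' : ℤ) : ℝ) := by
        push_cast
        linarith
      rw [h1, zf_add]
      linarith
    · intro t N htN
      rw [hprj]
      have h1 : (k : ℝ) * f t = N + zf (k * g t) := by linarith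
      rw [h1]
      exact zf_grid _ _
  · have hn0 : n ≠ 0 := by
      rintro rfl
      apply hne
      have : (k : ℝ) * (g 1 - g 0) = 0 := by
        have := hn
        push_cast at this
        linarith
      rcases mul_eq_zero.mp this with h1 | h1
      · exact absurd h1 hk0.ne'
      · linarith
    refine count_crossings (by omega) γ (grid k) (fun t => k * g t - wf (k * f t)) ?_ hn0 ?_ ?_ ?_
    · have := wf_continuous
      fun_prop
    · have h1 : (k : ℝ) * f 1 = k * f 0 + ((k * m : ℤ) : ℝ) := by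
        push_cast
        linarith
      rw [h1, wf_add]
      linarith
    · intro t t' htt
      rw [hprj, hprj, prj_eq_iff (by omega)] at htt
      obtain ⟨m', n', hm', hn'⟩ := htt
      refine ⟨n', ?_⟩
      have h1 : (k : ℝ) * f t = k * f t' + ((k * m' : ℤ) : ℝ) := by
        push_cast
        linarith
      rw [h1, wf_add]
      linarith
    · intro t N htN
      rw [hprj]
      have h1 : (k : ℝ) * g t = N + wf (k * f t) := by linarith
      rw [h1]
      exact wf_grid _ _

end Pool.Agent.MP_6bdc24_co
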