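import Pool.Agent.MP_6bdc24_co.Defs

/-!
Replacing a vertex of degree three by a triangle.
-/

namespace Pool.Agent.MP_6bdc24_co

/-- transfer of reachability along a map -/
lemma reachable_transfer {V W : Type*} {G : SimpleGraph V} {H : SimpleGraph W} (f : V → W)
    (hf : ∀ x y, G.Adj x y → H.Reachable (f x) (f y)) {x y : V} (h : G.Reachable x y) :
    H.Reachable (f x) (f y) := by
  obtain ⟨w⟩ := h
  induction w with
  | nil => exact .refl _
  | cons h _ ih => exact (hf _ _ h).trans ih

/-- Vertex sets `S` such that `G[S]` is connected and 2-regular and `G - S` is connected. -/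
def PerSet {V : Type} (G : SimpleGraph V) : Set (Set V) :=
  {S | (∀ y ∈ S, (G.neighborSet y ∩ S).ncard = 2) ∧ (G.induce S).Preconnected ∧
    (G.induce Sᶜ).Preconnected}

lemma verts_mem_PerSet {V : Type} {G : SimpleGraph V} {C : G.Subgraph}
    (h : IsPeripheralCycle G C) : C.verts ∈ PerSet G := by
  obtain ⟨⟨v, w, hw, rfl⟩, hind, hcon⟩ := h
  refine ⟨?_, ?_, hcon⟩
  · intro y hy
    have h1 : G.neighborSet y ∩ w.toSubgraph.verts = w.toSubgraph.neighborSet y := by
      ext z
      constructor
      · rintro ⟨h1, h2⟩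
        exact hind hy h2 h1
      · intro h1
        exact ⟨w.toSubgraph.adj_sub h1, w.toSubgraph.edge_vert h1.symm⟩
    rw [h1]
    exact hw.ncard_neighborSet_toSubgraph_eq_two (by simpa using hy)
  · have h1 := w.toSubgraph_connected
    have h2 : w.toSubgraph.coe.Preconnected := h1.coe.preconnected
    intro a b
    exact reachable_transfer (G := w.toSubgraph.coe) (H := G.induce w.toSubgraph.verts)
      (fun a => a) (fun x y hxy => by
        apply SimpleGraph.Adj.reachable
        show G.Adj x y
        exact w.toSubgraph.adj_sub hxy) (h2 a b)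

lemma numPeripheral_le {V : Type} [Finite V] (G : SimpleGraph V) :
    numPeripheral G ≤ (PerSet G).ncard := by
  unfold numPeripheral
  refine Set.ncard_le_ncard_of_injOn (fun C => C.verts) (fun C hC => verts_mem_PerSet hC) ?_
    (Set.toFinite _)
  intro C hC D hD hCD
  simp only at hCD
  apply SimpleGraph.Subgraph.ext hCD
  funext a b
  have h1 : ∀ (C : G.Subgraph), C.IsInduced → (C.Adj a b ↔ a ∈ C.verts ∧ b ∈ C.verts ∧ G.Adj a b) := by
    intro C hC
    constructor
    · intro h
      exact ⟨C.edge_vert h, C.edge_vert h.symm, C.adj_sub h⟩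
    · rintro ⟨h1, h2, h3⟩
      exact hC h1 h2 h3
  rw [eq_iff_iff, h1 C hC.2.1, h1 D hD.2.1, hCD]

/-- The vertex set after replacing `v` by a triangle. -/
abbrev NewV {V : Type} (v : V) : Type := {y : V // y ≠ v} ⊕ Fin 3

/-- Replace the vertex `v`, whose neighbours are `x 0, x 1, x 2`, by a triangle. -/
def newG {V : Type} (G : SimpleGraph V) (v : V) (x : Fin 3 → V) : SimpleGraph (NewV v) where
  Adj p q := match p, q with
    | .inl y, .inl z => G.Adj y z
    | .inl y, .inr i => y.1 = x i
    | .inr i, .inl y => y.1 = x i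
    | .inr i, .inr j => i ≠ j
  symm := ⟨by
    intro p q h
    rcases p with y | i <;> rcases q with z | j
    · exact G.adj_symm h
    · exact h
    · exact h
    · exact Ne.symm h⟩
  loopless := ⟨by
    intro p h
    rcases p with y | i
    · exact G.loopless.irrefl _ h
    · exact h rfl⟩

section

variable {V : Type} {G : SimpleGraph V} {v : V} {x : Fin 3 → V}

lemma newG_adj_ll {y z : {y : V // y ≠ v}} : (newG G v x).Adj (.inl y) (.inl z) ↔ G.Adj y z := Iff.rfl
lemma newG_adj_lr {y : {y : V // y ≠ v}} {i : Fin 3} :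
    (newG G v x).Adj (.inl y) (.inr i) ↔ y.1 = x i := Iff.rfl
lemma newG_adj_rl {y : {y : V // y ≠ v}} {i : Fin 3} :
    (newG G v x).Adj (.inr i) (.inl y) ↔ y.1 = x i := Iff.rfl
lemma newG_adj_rr {i j : Fin 3} :
    (newG G v x).Adj (.inr i) (.inr j) ↔ i ≠ j := Iff.rfl

/-- a configuration: `v` has exactly the three neighbours `x 0, x 1, x 2` -/
structure Config (G : SimpleGraph V) (v : V) (x : Fin 3 → V) : Prop where
  inj : Function.Injective x
  adj : ∀ y, G.Adj v y ↔ ∃ i, y = x i
  cubic : ∀ y, (G.neighborSet y).ncard = 3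

lemma Config.ne (h : Config G v x) (i : Fin 3) : x i ≠ v := by
  intro h'
  have : G.Adj v (x i) := (h.adj _).mpr ⟨i, rfl⟩
  rw [h'] at this
  exact G.loopless.irrefl _ this

open Classical in
/-- index of a neighbour -/
noncomputable def idx (x : Fin 3 → V) (y : V) : Fin 3 := if h : ∃ i, y = x i then h.choose else 0

lemma idx_x (h : Function.Injective x) (i : Fin 3) : idx x (x i) = i := by
  have hex : ∃ j, x i = x j := ⟨i, rfl⟩
  unfold idx
  rw [dif_pos hex]
  exact (h hex.choose_spec).symm

open Classical in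
/-- the neighbours of `y` in `G`, seen as neighbours of `y` in the new graph -/
noncomputable def lift (v : V) (x : Fin 3 → V) (y : V) (z : V) : NewV v :=
  if h : z ≠ v then .inl ⟨z, h⟩ else .inr (idx x y)

lemma lift_injective (y : V) : Function.Injective (lift v x y) := by
  intro z z' h
  unfold lift at h
  by_cases h1 : z ≠ v <;> by_cases h2 : z' ≠ v
  · rw [dif_pos h1, dif_pos h2] at h
    simpa using h
  · rw [dif_pos h1, dif_neg h2] at h
    simp at h
  · rw [dif_neg h1, dif_pos h2] at h
    simp at h
  · push Not at h1 h2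
    rw [h1, h2]

lemma lift_of_ne {y z : V} (h : z ≠ v) : lift v x y z = .inl ⟨z, h⟩ := by
  unfold lift
  rw [dif_pos h]

lemma lift_v {i : Fin 3} (h : Function.Injective x) : lift v x (x i) v = .inr i := by
  unfold lift
  rw [dif_neg (by simp), idx_x h]

lemma neighborSet_inl (h : Config G v x) (y : {y : V // y ≠ v}) :
    (newG G v x).neighborSet (.inl y) = lift v x y '' (G.neighborSet y) := by
  ext p
  constructor
  · intro hp
    rcases p with z | i
    · exact ⟨z.1, hp, by rw [lift_of_ne z.2]⟩
    · have hy : y.1 = x i := hp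
      refine ⟨v, ?_, ?_⟩
      · show G.Adj y v
        rw [hy]
        exact ((h.adj _).mpr ⟨i, rfl⟩).symm
      · rw [hy, lift_v h.inj]
  · rintro ⟨z, hz, rfl⟩
    by_cases hzv : z = v
    · subst hzv
      obtain ⟨i, hi⟩ := (h.adj _).mp (G.adj_symm hz)
      rw [hi, lift_v h.inj]
      exact hi
    · rw [lift_of_ne hzv]
      exact hz

lemma neighborSet_inr (h : Config G v x) {i j l : Fin 3} (hij : i ≠ j) (hil : i ≠ l) (hjl : j ≠ l) :
    (newG G v x).neighborSet (.inr i) = {.inr j, .inr l, .inl ⟨x i, h.ne i⟩} := by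
  ext p
  simp only [Set.mem_insert_iff, Set.mem_singleton_iff]
  rcases p with z | k
  · constructor
    · intro hz
      right; right
      have : z.1 = x i := hz
      congr 1
      exact Subtype.ext this
    · rintro (hz | hz | hz)
      · simp at hz
      · simp at hz
      · simp only [Sum.inl.injEq] at hz
        subst hz
        exact rfl
  · constructor
    · intro hk
      have : i ≠ k := hk
      have : k = j ∨ k = l := by omega
      rcases this with rfl | rfl <;> simp
    · rintro (hz | hz | hz)
      · simp only [Sum.inr.injEq] at hz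
        subst hz
        exact hij
      · simp only [Sum.inr.injEq] at hz
        subst hz
        exact hil
      · simp at hz

lemma newG_cubic (h : Config G v x) : ∀ p, ((newG G v x).neighborSet p).ncard = 3 := by
  rintro (y | i)
  · rw [neighborSet_inl h, Set.ncard_image_of_injective _ (lift_injective _), h.cubic]
  · obtain ⟨j, l, hij, hil, hjl⟩ : ∃ j l : Fin 3, i ≠ j ∧ i ≠ l ∧ j ≠ l := by
      fin_cases i
      · exact ⟨1, 2, by decide, by decide, by decide⟩
      · exact ⟨0, 2, by decide, by decide, by decide⟩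
      · exact ⟨0, 1, by decide, by decide, by decide⟩
    rw [neighborSet_inr h hij hil hjl, Set.ncard_insert_of_notMem, Set.ncard_pair]
    · simp
    · simp [hjl]

/-- the configuration at the new vertex `inr 0` -/
noncomputable def newX (h : Config G v x) : Fin 3 → NewV v :=
  ![.inl ⟨x 0, h.ne 0⟩, .inr 1, .inr 2]

lemma newConfig (h : Config G v x) : Config (newG G v x) (.inr 0) (newX h) where
  inj := by
    intro i j hij
    fin_cases i <;> fin_cases j <;> simp [newX] at hij ⊢
  adj := by
    intro p
    rw [← SimpleGraph.mem_neighborSet,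
      neighborSet_inr h (i := 0) (j := 1) (l := 2) (by decide) (by decide) (by decide)]
    simp only [Set.mem_insert_iff, Set.mem_singleton_iff]
    constructor
    · rintro (rfl | rfl | rfl)
      · exact ⟨1, rfl⟩
      · exact ⟨2, rfl⟩
      · exact ⟨0, rfl⟩
    · rintro ⟨i, rfl⟩
      fin_cases i
      · right; right; rfl
      · left; rfl
      · right; left; rfl
  cubic := newG_cubic h

/-! ### The number of peripheral cycles grows by at most one -/

lemma two_of_three {α : Type*} {p q r : α} (hpq : p ≠ q) (hpr : p ≠ r) (hqr : q ≠ r) {S : Set α}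
    (h : (({p, q, r} : Set α) ∩ S).ncard = 2) :
    (p ∈ S ∧ q ∈ S ∧ r ∉ S) ∨ (p ∈ S ∧ q ∉ S ∧ r ∈ S) ∨ (p ∉ S ∧ q ∈ S ∧ r ∈ S) := by
  by_cases hp : p ∈ S <;> by_cases hq : q ∈ S <;> by_cases hr : r ∈ S <;>
    simp only [Set.insert_inter_of_mem, Set.insert_inter_of_notMem, hp, hq, hr,
      Set.singleton_inter_of_mem, Set.singleton_inter_of_notMem, not_true_eq_false,
      not_false_eq_true, and_true, and_false, or_true, or_false] at h ⊢
  · rw [Set.ncard_insert_of_notMem, Set.ncard_pair hqr] at h
    · omega
    · simp [hpq, hpr]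
  · simp at h
  · simp at h
  · simp at h
  · simp at h

/-- the triangle -/
def tri (v : V) : Set (NewV v) := Set.range (fun i : Fin 3 => (Sum.inr i : NewV v))

lemma exists_others (l : Fin 3) : ∃ i j : Fin 3, i ≠ j ∧ i ≠ l ∧ j ≠ l ∧ ∀ k, k = i ∨ k = j ∨ k = l := by
  fin_cases l
  · exact ⟨1, 2, by decide, by decide, by decide, by decide⟩
  · exact ⟨0, 2, by decide, by decide, by decide, by decide⟩
  · exact ⟨0, 1, by decide, by decide, by decide, by decide⟩

/-- Every vertex set in `PerSet` of the new graph other than the triangle contains no vertex of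
the triangle, or exactly two together with their outer neighbours. -/
lemma per_cases [Finite V] (h : Config G v x) (hcard : 4 ≤ Nat.card V) {S : Set (NewV v)}
    (hS : S ∈ PerSet (newG G v x)) (hST : S ≠ tri v) :
    (∀ i, Sum.inr i ∉ S) ∨ ∃ l, Sum.inr l ∉ S ∧ Sum.inl ⟨x l, h.ne l⟩ ∉ S ∧
      ∀ i, i ≠ l → Sum.inr i ∈ S ∧ Sum.inl ⟨x i, h.ne i⟩ ∈ S := by
  obtain ⟨hdeg, hcon, hcocon⟩ := hS
  have key : ∀ i j l : Fin 3, i ≠ j → i ≠ l → j ≠ l → (Sum.inr i : NewV v) ∈ S →
      (((Sum.inr j : NewV v) ∈ S ∧ (Sum.inr l : NewV v) ∈ S ∧ (Sum.inl ⟨x i, h.ne i⟩ : NewV v) ∉ S) ∨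
       ((Sum.inr j : NewV v) ∈ S ∧ (Sum.inr l : NewV v) ∉ S ∧ (Sum.inl ⟨x i, h.ne i⟩ : NewV v) ∈ S) ∨
       ((Sum.inr j : NewV v) ∉ S ∧ (Sum.inr l : NewV v) ∈ S ∧ (Sum.inl ⟨x i, h.ne i⟩ : NewV v) ∈ S)) := by
    intro i j l hij hil hjl hi
    have h1 := hdeg _ hi
    rw [neighborSet_inr h hij hil hjl] at h1
    exact two_of_three (by simp [hjl]) (by simp) (by simp) h1
  -- not all three
  have hnot : ¬ ∀ i : Fin 3, (Sum.inr i : NewV v) ∈ S := by
    intro hall
    apply hST
    have hb : ∀ i : Fin 3, (Sum.inl ⟨x i, h.ne i⟩ : NewV v) ∉ S := by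
      intro i
      obtain ⟨j, l, hjl, hji, hli, -⟩ := exists_others i
      rcases key i j l hji.symm hli.symm hjl (hall i) with h1 | h1 | h1
      · exact h1.2.2
      · exact absurd (hall l) h1.2.1
      · exact absurd (hall j) h1.1
    ext p
    constructor
    · intro hp
      by_contra hpT
      -- reachability inside `S` from `inr 0` to `p` stays in the triangle
      have hr := hcon ⟨_, hall 0⟩ ⟨p, hp⟩
      have hstay : ∀ a b : S, ((newG G v x).induce S).Reachable a b → a.1 ∈ tri v → b.1 ∈ tri v := by
        intro a b hab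
        obtain ⟨w⟩ := hab
        induction w with
        | nil => exact id
        | @cons a c b hac _ ih =>
          intro ha
          apply ih
          obtain ⟨i, hi⟩ := ha
          have hac' : (newG G v x).Adj a.1 c.1 := hac
          rw [← hi] at hac'
          rcases hc : c.1 with z | j
          · exfalso
            rw [hc] at hac'
            have hz : z.1 = x i := hac'
            apply hb i
            have : (Sum.inl ⟨x i, h.ne i⟩ : NewV v) = c.1 := by
              rw [hc]; congr 1; exact Subtype.ext hz.symm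
            rw [this]
            exact c.2
          · exact ⟨j, rfl⟩
      exact hpT (hstay _ _ hr ⟨0, rfl⟩)
    · rintro ⟨i, rfl⟩
      exact hall i
  by_cases hnone : ∀ i, (Sum.inr i : NewV v) ∉ S
  · left; exact hnone
  right
  push Not at hnone hnot
  obtain ⟨l, hl⟩ := hnot
  obtain ⟨i₀, hi₀⟩ := hnone
  obtain ⟨i, j, hij, hil, hjl, hk⟩ := exists_others l
  have hboth : (Sum.inr i : NewV v) ∈ S ∧ (Sum.inr j : NewV v) ∈ S := by
    have hi₀' : i₀ = i ∨ i₀ = j := by
      rcases hk i₀ with h1 | h1 | h1
      · exact Or.inl h1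
      · exact Or.inr h1
      · subst h1; exact absurd hi₀ hl
    rcases hi₀' with rfl | rfl
    · refine ⟨hi₀, ?_⟩
      rcases key i₀ j l hij hil hjl hi₀ with h1 | h1 | h1
      · exact h1.1
      · exact h1.1
      · exact absurd h1.2.1 hl
    · refine ⟨?_, hi₀⟩
      rcases key i₀ i l hij.symm hjl hil hi₀ with h1 | h1 | h1
      · exact h1.1
      · exact h1.1
      · exact absurd h1.2.1 hl
  have hxi : (Sum.inl ⟨x i, h.ne i⟩ : NewV v) ∈ S := by
    rcases key i j l hij hil hjl hboth.1 with h1 | h1 | h1
    · exact absurd h1.2.1 hl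
    · exact h1.2.2
    · exact h1.2.2
  have hxj : (Sum.inl ⟨x j, h.ne j⟩ : NewV v) ∈ S := by
    rcases key j i l hij.symm hjl hil hboth.2 with h1 | h1 | h1
    · exact absurd h1.2.1 hl
    · exact h1.2.2
    · exact h1.2.2
  refine ⟨l, hl, ?_, ?_⟩
  · -- otherwise `inr l` is isolated in the complement
    intro hxl
    have hiso : ∀ p, (newG G v x).Adj (.inr l) p → p ∈ S := by
      intro p hp
      have : p ∈ (newG G v x).neighborSet (.inr l) := hp
      rw [neighborSet_inr h hil.symm hjl.symm hij] at this
      rcases this with rfl | rfl | rfl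
      · exact hboth.1
      · exact hboth.2
      · exact hxl
    have hcomp : ∀ p, p ∉ S → p = .inr l := by
      intro p hp
      have hr := hcocon ⟨_, hl⟩ ⟨p, hp⟩
      obtain ⟨w⟩ := hr
      cases w with
      | nil => rfl
      | @cons _ c _ hac _ => exact absurd (hiso _ hac) c.2
    -- a vertex not adjacent to `inr l`
    obtain ⟨z, hz1, hz2⟩ : ∃ z : NewV v, z ≠ .inr l ∧ z ∉ (newG G v x).neighborSet (.inr l) := by
      by_contra hcon'
      push Not at hcon'
      have huniv : (Set.univ : Set (NewV v)) ⊆ insert (.inr l) ((newG G v x).neighborSet (.inr l)) := by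
        intro z _
        by_cases hz : z = .inr l
        · left; exact hz
        · right; exact hcon' z hz
      have hc1 := Set.ncard_le_ncard huniv (Set.toFinite _)
      have hc2 := Set.ncard_insert_le (.inr l : NewV v) ((newG G v x).neighborSet (.inr l))
      rw [newG_cubic h] at hc2
      rw [Set.ncard_univ] at hc1
      have hc3 : Nat.card (NewV v) = Nat.card {y : V // y ≠ v} + 3 := by
        rw [Nat.card_sum, Nat.card_fin]
      have hc4 : Nat.card {y : V // y ≠ v} = Nat.card V - 1 := by
        classical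
        have := Fintype.ofFinite V
        rw [Nat.card_eq_fintype_card, Nat.card_eq_fintype_card, Fintype.card_subtype_compl,
          Fintype.card_subtype_eq]
      omega
    have hzS : z ∈ S := by
      by_contra hzS
      exact hz1 (hcomp z hzS)
    have h2 := hdeg z hzS
    have h3 : (newG G v x).neighborSet z ∩ S = (newG G v x).neighborSet z := by
      apply Set.inter_eq_left.mpr
      intro p hp
      by_contra hpS
      have := hcomp p hpS
      subst this
      exact hz2 ((newG G v x).adj_symm hp)
    rw [h3, newG_cubic h] at h2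
    omega
  · intro k hkl
    rcases hk k with rfl | rfl | rfl
    · exact ⟨hboth.1, hxi⟩
    · exact ⟨hboth.2, hxj⟩
    · exact absurd rfl hkl

/-- the image of a vertex set under contraction of the triangle -/
def shrink (v : V) (S : Set (NewV v)) : Set V :=
  {y | (∃ h : y ≠ v, Sum.inl ⟨y, h⟩ ∈ S) ∨ (y = v ∧ ∃ i, Sum.inr i ∈ S)}

lemma mem_shrink_of_ne {S : Set (NewV v)} {y : V} (hy : y ≠ v) :
    y ∈ shrink v S ↔ Sum.inl ⟨y, hy⟩ ∈ S := by
  constructor
  · rintro (⟨_, h⟩ | ⟨h, -⟩)
    · exact h
    · exact absurd h hy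
  · intro h
    exact Or.inl ⟨hy, h⟩

lemma mem_shrink_v {S : Set (NewV v)} : v ∈ shrink v S ↔ ∃ i, Sum.inr i ∈ S := by
  constructor
  · rintro (⟨h, _⟩ | ⟨-, h⟩)
    · exact absurd rfl h
    · exact h
  · intro h
    exact Or.inr ⟨rfl, h⟩

/-- contraction of the triangle -/
def contr (v : V) : NewV v → V
  | .inl y => y.1
  | .inr _ => v

lemma shrink_mem [Finite V] (h : Config G v x) (hcard : 4 ≤ Nat.card V) {S : Set (NewV v)}
    (hS : S ∈ PerSet (newG G v x)) (hST : S ≠ tri v) : shrink v S ∈ PerSet G := by
  have hcases := per_cases h hcard hS hST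
  obtain ⟨hdeg, hcon, hcocon⟩ := hS
  -- membership of `v` seen from a neighbour in `S`
  have hv : ∀ i, (Sum.inl ⟨x i, h.ne i⟩ : NewV v) ∈ S →
      (v ∈ shrink v S ↔ (Sum.inr i : NewV v) ∈ S) := by
    intro i hi
    rw [mem_shrink_v]
    constructor
    · rintro ⟨j, hj⟩
      rcases hcases with h1 | ⟨l, h1, h2, h3⟩
      · exact absurd hj (h1 j)
      · by_cases hil : i = l
        · subst hil
          exact absurd hi h2
        · exact (h3 i hil).1
    · intro h1
      exact ⟨i, h1⟩
  refine ⟨?_, ?_, ?_⟩
  · intro y hy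
    by_cases hyv : y = v
    · subst hyv
      rw [mem_shrink_v] at hy
      rcases hcases with h1 | ⟨l, h1, h2, h3⟩
      · obtain ⟨i, hi⟩ := hy
        exact absurd hi (h1 i)
      · obtain ⟨i, j, hij, hil, hjl, hk⟩ := exists_others l
        have h4 : G.neighborSet y ∩ shrink y S = {x i, x j} := by
          ext z
          constructor
          · rintro ⟨hz1, hz2⟩
            obtain ⟨k, rfl⟩ := (h.adj _).mp hz1
            rw [mem_shrink_of_ne (h.ne k)] at hz2
            rcases hk k with rfl | rfl | rfl
            · left; rfl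
            · right; rfl
            · exact absurd hz2 h2
          · rintro (rfl | hz)
            · exact ⟨(h.adj _).mpr ⟨i, rfl⟩, (mem_shrink_of_ne (h.ne i)).mpr (h3 i hil).2⟩
            · rw [Set.mem_singleton_iff] at hz
              subst hz
              exact ⟨(h.adj _).mpr ⟨j, rfl⟩, (mem_shrink_of_ne (h.ne j)).mpr (h3 j hjl).2⟩
        rw [h4, Set.ncard_pair]
        intro h5
        exact hij (h.inj h5)
    · have hyS := (mem_shrink_of_ne hyv).mp hy
      have h4 : lift v x y '' (G.neighborSet y ∩ shrink v S)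
          = (newG G v x).neighborSet (.inl ⟨y, hyv⟩) ∩ S := by
        rw [neighborSet_inl h]
        ext p
        constructor
        · rintro ⟨z, ⟨hz1, hz2⟩, rfl⟩
          refine ⟨⟨z, hz1, rfl⟩, ?_⟩
          by_cases hzv : z = v
          · subst hzv
            obtain ⟨i, rfl⟩ := (h.adj _).mp (G.adj_symm hz1)
            rw [lift_v h.inj]
            exact (hv i hyS).mp hz2
          · rw [lift_of_ne hzv]
            exact (mem_shrink_of_ne hzv).mp hz2
        · rintro ⟨⟨z, hz1, rfl⟩, hz2⟩
          refine ⟨z, ⟨hz1, ?_⟩, rfl⟩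
          by_cases hzv : z = v
          · subst hzv
            obtain ⟨i, rfl⟩ := (h.adj _).mp (G.adj_symm hz1)
            rw [lift_v h.inj] at hz2
            exact (hv i hyS).mpr hz2
          · rw [lift_of_ne hzv] at hz2
            exact (mem_shrink_of_ne hzv).mpr hz2
      rw [← Set.ncard_image_of_injective _ (lift_injective (v := v) (x := x) y), h4]
      exact hdeg _ hyS
  · -- connectedness of `G[shrink S]`
    have hmem : ∀ p : S, contr v p.1 ∈ shrink v S := by
      rintro ⟨p, hp⟩
      rcases p with y | i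
      · exact (mem_shrink_of_ne y.2).mpr hp
      · exact mem_shrink_v.mpr ⟨i, hp⟩
    have hsurj : ∀ q : shrink v S, ∃ p : S, contr v p.1 = q.1 := by
      rintro ⟨q, hq⟩
      by_cases hqv : q = v
      · subst hqv
        obtain ⟨i, hi⟩ := mem_shrink_v.mp hq
        exact ⟨⟨_, hi⟩, rfl⟩
      · exact ⟨⟨_, (mem_shrink_of_ne hqv).mp hq⟩, rfl⟩
    intro a b
    obtain ⟨p, hp⟩ := hsurj a
    obtain ⟨q, hq⟩ := hsurj b
    have h5 := reachable_transfer (G := (newG G v x).induce S) (H := G.induce (shrink v S))
      (fun p => (⟨contr v p.1, hmem p⟩ : shrink v S)) (by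
        rintro ⟨p, hp⟩ ⟨q, hq⟩ hpq
        have hpq' : (newG G v x).Adj p q := hpq
        rcases p with y | i <;> rcases q with z | j
        · exact SimpleGraph.Adj.reachable (show G.Adj y.1 z.1 from hpq')
        · apply SimpleGraph.Adj.reachable
          show G.Adj y.1 v
          have hy : y.1 = x j := hpq'
          rw [hy]
          exact G.adj_symm ((h.adj _).mpr ⟨j, rfl⟩)
        · apply SimpleGraph.Adj.reachable
          show G.Adj v z.1
          have hy : z.1 = x i := hpq'
          rw [hy]
          exact (h.adj _).mpr ⟨i, rfl⟩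
        · exact SimpleGraph.Reachable.refl _) (hcon p q)
    have ha : a = ⟨contr v p.1, hmem p⟩ := Subtype.ext hp.symm
    have hb : b = ⟨contr v q.1, hmem q⟩ := Subtype.ext hq.symm
    rw [ha, hb]
    exact h5
  · -- connectedness of the complement
    rcases hcases with hnone | ⟨l, h1, h2, h3⟩
    · have hvn : v ∉ shrink v S := by
        rw [mem_shrink_v]
        push Not
        exact hnone
      have hmem : ∀ p : (Sᶜ : Set (NewV v)), contr v p.1 ∈ (shrink v S)ᶜ := by
        rintro ⟨p, hp⟩
        rcases p with y | i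
        · intro hy
          exact hp ((mem_shrink_of_ne y.2).mp hy)
        · exact hvn
      have hsurj : ∀ q : ((shrink v S)ᶜ : Set V), ∃ p : (Sᶜ : Set (NewV v)), contr v p.1 = q.1 := by
        rintro ⟨q, hq⟩
        by_cases hqv : q = v
        · subst hqv
          exact ⟨⟨_, hnone 0⟩, rfl⟩
        · exact ⟨⟨_, fun hh => hq ((mem_shrink_of_ne hqv).mpr hh)⟩, rfl⟩
      intro a b
      obtain ⟨p, hp⟩ := hsurj a
      obtain ⟨q, hq⟩ := hsurj b
      have h5 := reachable_transfer (G := (newG G v x).induce Sᶜ) (H := G.induce (shrink v S)ᶜ)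
        (fun p => (⟨contr v p.1, hmem p⟩ : ((shrink v S)ᶜ : Set V))) (by
          rintro ⟨p, hp⟩ ⟨q, hq⟩ hpq
          have hpq' : (newG G v x).Adj p q := hpq
          rcases p with y | i <;> rcases q with z | j
          · exact SimpleGraph.Adj.reachable (show G.Adj y.1 z.1 from hpq')
          · apply SimpleGraph.Adj.reachable
            show G.Adj y.1 v
            have hy : y.1 = x j := hpq'
            rw [hy]
            exact G.adj_symm ((h.adj _).mpr ⟨j, rfl⟩)
          · apply SimpleGraph.Adj.reachable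
            show G.Adj v z.1
            have hy : z.1 = x i := hpq'
            rw [hy]
            exact (h.adj _).mpr ⟨i, rfl⟩
          · exact SimpleGraph.Reachable.refl _) (hcocon p q)
      have ha : a = ⟨contr v p.1, hmem p⟩ := Subtype.ext hp.symm
      have hb : b = ⟨contr v q.1, hmem q⟩ := Subtype.ext hq.symm
      rw [ha, hb]
      exact h5
    · have hvin : v ∈ shrink v S := by
        rw [mem_shrink_v]
        obtain ⟨i, j, hij, hil, hjl, hk⟩ := exists_others l
        exact ⟨i, (h3 i hil).1⟩
      let g : NewV v → V := fun p => match p with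
        | .inl y => y.1
        | .inr _ => x l
      have hmem : ∀ p : (Sᶜ : Set (NewV v)), g p.1 ∈ (shrink v S)ᶜ := by
        rintro ⟨p, hp⟩
        rcases p with y | i
        · intro hy
          exact hp ((mem_shrink_of_ne y.2).mp hy)
        · intro hy
          exact h2 ((mem_shrink_of_ne (h.ne l)).mp hy)
      have hsurj : ∀ q : ((shrink v S)ᶜ : Set V), ∃ p : (Sᶜ : Set (NewV v)), g p.1 = q.1 := by
        rintro ⟨q, hq⟩
        have hqv : q ≠ v := by
          rintro rfl
          exact hq hvin
        exact ⟨⟨_, fun hh => hq ((mem_shrink_of_ne hqv).mpr hh)⟩, rfl⟩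
      intro a b
      obtain ⟨p, hp⟩ := hsurj a
      obtain ⟨q, hq⟩ := hsurj b
      have h5 := reachable_transfer (G := (newG G v x).induce Sᶜ) (H := G.induce (shrink v S)ᶜ)
        (fun p => (⟨g p.1, hmem p⟩ : ((shrink v S)ᶜ : Set V))) (by
          rintro ⟨p', hp'⟩ ⟨q', hq'⟩ hpq
          have hpq' : (newG G v x).Adj p' q' := hpq
          rcases p' with y | i <;> rcases q' with z | j
          · exact SimpleGraph.Adj.reachable (show G.Adj y.1 z.1 from hpq')
          · have hj : j = l := by
              by_contra hjl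
              exact hq' (h3 j hjl).1
            subst hj
            have hy : y.1 = x j := hpq'
            have : (⟨g (Sum.inl y), hmem ⟨Sum.inl y, hp'⟩⟩ : ((shrink v S)ᶜ : Set V))
                = ⟨g (Sum.inr j), hmem ⟨Sum.inr j, hq'⟩⟩ := Subtype.ext hy
            show SimpleGraph.Reachable _ (⟨g (Sum.inl y), _⟩ : ((shrink v S)ᶜ : Set V)) _
            rw [this]
          · have hi : i = l := by
              by_contra hil
              exact hp' (h3 i hil).1
            subst hi
            have hy : z.1 = x i := hpq'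
            have : (⟨g (Sum.inr i), hmem ⟨Sum.inr i, hp'⟩⟩ : ((shrink v S)ᶜ : Set V))
                = ⟨g (Sum.inl z), hmem ⟨Sum.inl z, hq'⟩⟩ := Subtype.ext hy.symm
            show SimpleGraph.Reachable _ (⟨g (Sum.inr i), _⟩ : ((shrink v S)ᶜ : Set V)) _
            rw [this]
          · exact SimpleGraph.Reachable.refl _) (hcocon p q)
      have ha : a = ⟨g p.1, hmem p⟩ := Subtype.ext hp.symm
      have hb : b = ⟨g q.1, hmem q⟩ := Subtype.ext hq.symm
      rw [ha, hb]
      exact h5

lemma shrink_injOn [Finite V] (h : Config G v x) (hcard : 4 ≤ Nat.card V) :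
    Set.InjOn (shrink v) (PerSet (newG G v x) \ {tri v}) := by
  have key : ∀ S ∈ PerSet (newG G v x) \ {tri v}, ∀ i,
      ((Sum.inr i : NewV v) ∈ S ↔ v ∈ shrink v S ∧ x i ∈ shrink v S) := by
    rintro S ⟨hS, hST⟩ i
    have hcases := per_cases h hcard hS (by simpa using hST)
    rw [mem_shrink_v, mem_shrink_of_ne (h.ne i)]
    rcases hcases with h1 | ⟨l, h1, h2, h3⟩
    · constructor
      · intro h4; exact absurd h4 (h1 i)
      · rintro ⟨⟨j, hj⟩, -⟩; exact absurd hj (h1 j)
    · constructor
      · intro h4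
        have hil : i ≠ l := by rintro rfl; exact h1 h4
        exact ⟨⟨i, h4⟩, (h3 i hil).2⟩
      · rintro ⟨-, h4⟩
        have hil : i ≠ l := by rintro rfl; exact h2 h4
        exact (h3 i hil).1
  intro S hS S' hS' heq
  ext p
  rcases p with y | i
  · rw [← mem_shrink_of_ne y.2, ← mem_shrink_of_ne y.2, heq]
  · rw [key S hS i, key S' hS' i, heq]

lemma perSet_step [Finite V] (h : Config G v x) (hcard : 4 ≤ Nat.card V) :
    (PerSet (newG G v x)).ncard ≤ (PerSet G).ncard + 1 := by
  have h1 : (PerSet (newG G v x) \ {tri v}).ncard ≤ (PerSet G).ncard :=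
    Set.ncard_le_ncard_of_injOn (shrink v)
      (fun S hS => shrink_mem h hcard hS.1 (by simpa using hS.2)) (shrink_injOn h hcard)
      (Set.toFinite _)
  have h2 := Set.ncard_le_ncard_sdiff_add_ncard (PerSet (newG G v x)) {tri v} (Set.toFinite _)
  rw [Set.ncard_singleton] at h2
  omega

end

end Pool.Agent.MP_6bdc24_co
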