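import Pool.Agent.MP_6bdc24_co.Step

/-!
Edge-connectivity and minors under the replacement of a vertex by a triangle.
-/

namespace Pool.Agent.MP_6bdc24_co

section

variable {V : Type} {G : SimpleGraph V} {v : V} {x : Fin 3 → V}

lemma co_connected (h : Config G v x) (hG : G.IsEdgeConnected 3) :
    (G.induce {v}ᶜ).Preconnected := by
  classical
  let F : Set (Sym2 V) := {s(v, x 1), s(v, x 2)}
  have hF : F.encard < (3 : ℕ) := by
    refine lt_of_le_of_lt (Set.encard_insert_le _ _) ?_
    rw [Set.encard_singleton]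
    norm_num
  have hmem : ∀ y, (if y = v then x 0 else y) ∈ ({v}ᶜ : Set V) := by
    intro y
    split_ifs with hy
    · exact h.ne 0
    · exact hy
  rintro ⟨a, ha⟩ ⟨b, hb⟩
  have h1 := hG a b hF
  have h2 := reachable_transfer (G := G.deleteEdges F) (H := G.induce {v}ᶜ)
    (fun y => (⟨if y = v then x 0 else y, hmem y⟩ : ({v}ᶜ : Set V))) (by
      intro y z hyz
      rw [SimpleGraph.deleteEdges_adj] at hyz
      obtain ⟨hyz1, hyz2⟩ := hyz
      by_cases hy : y = v
      · subst hy
        obtain ⟨i, rfl⟩ := (h.adj _).mp hyz1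
        have hi : i = 0 := by
          fin_cases i
          · rfl
          · exact absurd (Or.inl rfl) hyz2
          · exact absurd (Or.inr rfl) hyz2
        subst hi
        have : (⟨if y = y then x 0 else y, hmem y⟩ : ({y}ᶜ : Set V))
            = ⟨if x 0 = y then x 0 else x 0, hmem (x 0)⟩ := by
          apply Subtype.ext
          simp
        rw [this]
      · by_cases hz : z = v
        · subst hz
          obtain ⟨i, rfl⟩ := (h.adj _).mp (G.adj_symm hyz1)
          have hi : i = 0 := by
            fin_cases i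
            · rfl
            · exact absurd (Or.inl Sym2.eq_swap) hyz2
            · exact absurd (Or.inr Sym2.eq_swap) hyz2
          subst hi
          have : (⟨if z = z then x 0 else z, hmem z⟩ : ({z}ᶜ : Set V))
              = ⟨if x 0 = z then x 0 else x 0, hmem (x 0)⟩ := by
            apply Subtype.ext
            simp
          rw [this]
        · apply SimpleGraph.Adj.reachable
          show G.Adj (if y = v then x 0 else y) (if z = v then x 0 else z)
          rw [if_neg hy, if_neg hz]
          exact hyz1) h1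
  have ha' : a ≠ v := ha
  have hb' : b ≠ v := hb
  simp only [if_neg ha', if_neg hb'] at h2
  exact h2

lemma newG_edgeConnected (h : Config G v x) (hG : G.IsEdgeConnected 3) :
    (newG G v x).IsEdgeConnected 3 := by
  classical
  intro p q F' hF'
  by_cases hcase : ∃ e ∈ F', ∀ i j : Fin 3, e ≠ s(Sum.inr i, Sum.inr j)
  · obtain ⟨e, heF, he⟩ := hcase
    -- the triangle stays connected
    have htri : ∀ i j : Fin 3, ((newG G v x).deleteEdges F').Reachable (.inr i) (.inr j) := by
      intro i j
      by_cases hij : i = j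
      · subst hij; exact SimpleGraph.Reachable.refl _
      by_cases hijF : s((Sum.inr i : NewV v), Sum.inr j) ∈ F'
      · obtain ⟨l, hli, hlj⟩ : ∃ l : Fin 3, l ≠ i ∧ l ≠ j := by
          have hall : ∀ i j : Fin 3, ∃ l : Fin 3, l ≠ i ∧ l ≠ j := by decide
          exact hall i j
        have three : ∀ f ∈ F', f ≠ e → f ≠ s((Sum.inr i : NewV v), Sum.inr j) → False := by
          intro f hf hfe hfij
          have hsub : ({e, s((Sum.inr i : NewV v), Sum.inr j), f} : Set (Sym2 (NewV v))) ⊆ F' := by
            rintro g (rfl | rfl | rfl)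
            · exact heF
            · exact hijF
            · exact hf
          have h1 := Set.encard_le_encard hsub
          rw [Set.encard_insert_of_notMem, Set.encard_pair (Ne.symm hfij)] at h1
          · have h2 := lt_of_le_of_lt h1 hF'
            norm_num at h2
          · rintro (h2 | h2)
            · exact he i j h2
            · exact hfe h2.symm
        have h1 : s((Sum.inr i : NewV v), Sum.inr l) ∉ F' := by
          intro hf
          refine three _ hf (fun h => he i l h.symm) ?_
          intro h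
          rw [Sym2.eq_iff] at h
          rcases h with ⟨-, h⟩ | ⟨h, -⟩
          · exact hlj (Sum.inr_injective h)
          · exact hij (Sum.inr_injective h)
        have h2 : s((Sum.inr l : NewV v), Sum.inr j) ∉ F' := by
          intro hf
          refine three _ hf (fun h => he l j h.symm) ?_
          intro h
          rw [Sym2.eq_iff] at h
          rcases h with ⟨h, -⟩ | ⟨h, -⟩
          · exact hli (Sum.inr_injective h)
          · exact hlj (Sum.inr_injective h)
        have a1 : ((newG G v x).deleteEdges F').Adj (.inr i) (.inr l) := by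
          rw [SimpleGraph.deleteEdges_adj]
          exact ⟨hli.symm, h1⟩
        have a2 : ((newG G v x).deleteEdges F').Adj (.inr l) (.inr j) := by
          rw [SimpleGraph.deleteEdges_adj]
          exact ⟨hlj, h2⟩
        exact a1.reachable.trans a2.reachable
      · apply SimpleGraph.Adj.reachable
        rw [SimpleGraph.deleteEdges_adj]
        exact ⟨hij, hijF⟩
    let F : Set (Sym2 V) := Sym2.map (contr v) '' F'
    have hF : F.encard < (3 : ℕ) := lt_of_le_of_lt (Set.encard_image_le _ _) hF'
    let f : V → NewV v := fun y => if hy : y = v then .inr 0 else .inl ⟨y, hy⟩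
    have hf_v : f v = .inr 0 := by simp [f]
    have hf_ne : ∀ y (hy : y ≠ v), f y = .inl ⟨y, hy⟩ := by
      intro y hy
      simp only [f]
      rw [dif_neg hy]
    have hadj : ∀ i, s(v, x i) ∉ F →
        ((newG G v x).deleteEdges F').Adj (.inr i) (.inl ⟨x i, h.ne i⟩) := by
      intro i hi
      rw [SimpleGraph.deleteEdges_adj]
      refine ⟨rfl, fun hmem => hi ⟨_, hmem, ?_⟩⟩
      rfl
    have hstep : ∀ y z, (G.deleteEdges F).Adj y z →
        ((newG G v x).deleteEdges F').Reachable (f y) (f z) := by
      intro y z hyz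
      rw [SimpleGraph.deleteEdges_adj] at hyz
      obtain ⟨hyz1, hyz2⟩ := hyz
      by_cases hy : y = v
      · subst hy
        obtain ⟨i, rfl⟩ := (h.adj _).mp hyz1
        rw [hf_v, hf_ne _ (h.ne i)]
        exact (htri 0 i).trans (hadj i hyz2).reachable
      · by_cases hz : z = v
        · subst hz
          obtain ⟨i, rfl⟩ := (h.adj _).mp (G.adj_symm hyz1)
          rw [hf_v, hf_ne _ (h.ne i)]
          rw [Sym2.eq_swap] at hyz2
          exact (hadj i hyz2).reachable.symm.trans (htri i 0)
        · rw [hf_ne _ hy, hf_ne _ hz]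
          apply SimpleGraph.Adj.reachable
          rw [SimpleGraph.deleteEdges_adj]
          exact ⟨hyz1, fun hmem => hyz2 ⟨_, hmem, rfl⟩⟩
    have hback : ∀ p : NewV v, ((newG G v x).deleteEdges F').Reachable p (f (contr v p)) := by
      rintro (y | i)
      · show ((newG G v x).deleteEdges F').Reachable (Sum.inl y) (f y.1)
        rw [hf_ne _ y.2]
      · show ((newG G v x).deleteEdges F').Reachable (Sum.inr i) (f v)
        rw [hf_v]
        exact htri i 0
    exact (hback p).trans ((reachable_transfer f hstep (hG (contr v p) (contr v q) hF)).trans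
      (hback q).symm)
  · push Not at hcase
    -- all deleted edges lie in the triangle
    have hout : ∀ (y : {y : V // y ≠ v}) (r : NewV v), s(Sum.inl y, r) ∉ F' := by
      intro y r hmem
      obtain ⟨i, j, hij⟩ := hcase _ hmem
      rw [Sym2.eq_iff] at hij
      rcases hij with ⟨h1, -⟩ | ⟨h1, -⟩ <;> simp at h1
    have hll : ∀ y z : {y : V // y ≠ v},
        ((newG G v x).deleteEdges F').Reachable (.inl y) (.inl z) := by
      intro y z
      have h1 := co_connected h hG ⟨y.1, y.2⟩ ⟨z.1, z.2⟩
      exact reachable_transfer (G := G.induce {v}ᶜ) (H := (newG G v x).deleteEdges F')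
        (fun y : ({v}ᶜ : Set V) => (Sum.inl ⟨y.1, y.2⟩ : NewV v)) (by
          intro a b hab
          apply SimpleGraph.Adj.reachable
          rw [SimpleGraph.deleteEdges_adj]
          exact ⟨hab, hout _ _⟩) h1
    have hr : ∀ i, ((newG G v x).deleteEdges F').Reachable (.inl ⟨x i, h.ne i⟩) (.inr i) := by
      intro i
      apply SimpleGraph.Adj.reachable
      rw [SimpleGraph.deleteEdges_adj]
      exact ⟨rfl, hout _ _⟩
    rcases p with y | i <;> rcases q with z | j
    · exact hll y z
    · exact (hll y _).trans (hr j)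
    · exact (hr i).symm.trans (hll _ z)
    · exact (hr i).symm.trans ((hll _ _).trans (hr j))

/-- `H` is a minor of `G` with branch sets avoiding `v` -/
def MinorAvoiding {W V : Type} (H : SimpleGraph W) (G : SimpleGraph V) (v : V) : Prop :=
  ∃ B : W → Set V, (∀ w, (G.induce (B w)).Connected) ∧ (∀ w w', w ≠ w' → Disjoint (B w) (B w')) ∧
    (∀ w w', H.Adj w w' → ∃ a ∈ B w, ∃ b ∈ B w', G.Adj a b) ∧ ∀ w, v ∉ B w

lemma MinorAvoiding.isMinor {W : Type} {H : SimpleGraph W} (h : MinorAvoiding H G v) :
    IsMinor H G := by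
  obtain ⟨B, h1, h2, h3, -⟩ := h
  exact ⟨B, h1, h2, h3⟩

lemma minor_step {W : Type} {H : SimpleGraph W} (hm : MinorAvoiding H G v) :
    MinorAvoiding H (newG G v x) (.inr 0) := by
  obtain ⟨B, h1, h2, h3, h4⟩ := hm
  have hne : ∀ w, ∀ y ∈ B w, y ≠ v := by
    rintro w y hy rfl
    exact h4 w hy
  refine ⟨fun w => {p | ∃ y : {y : V // y ≠ v}, y.1 ∈ B w ∧ p = .inl y}, ?_, ?_, ?_, ?_⟩
  · intro w
    have hc := h1 w
    have hnonempty : Nonempty (B w) := hc.nonempty
    obtain ⟨y₀, hy₀⟩ := hnonempty
    have : Nonempty ({p : NewV v | ∃ y : {y : V // y ≠ v}, y.1 ∈ B w ∧ p = .inl y} : Set (NewV v)) :=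
      ⟨⟨.inl ⟨y₀, hne w y₀ hy₀⟩, ⟨_, hy₀, rfl⟩⟩⟩
    refine { preconnected := ?_, nonempty := this }
    rintro ⟨p, y, hy, rfl⟩ ⟨q, z, hz, rfl⟩
    have h5 := hc.preconnected ⟨y.1, hy⟩ ⟨z.1, hz⟩
    exact reachable_transfer (G := G.induce (B w)) (H := (newG G v x).induce
      {p : NewV v | ∃ y : {y : V // y ≠ v}, y.1 ∈ B w ∧ p = .inl y})
      (fun a => ⟨.inl ⟨a.1, hne w a.1 a.2⟩, ⟨_, a.2, rfl⟩⟩) (by
        intro a b hab
        apply SimpleGraph.Adj.reachable
        exact hab) h5
  · intro w w' hww
    rw [Set.disjoint_left]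
    rintro p ⟨y, hy, rfl⟩ ⟨z, hz, hyz⟩
    have : y = z := Sum.inl_injective hyz
    subst this
    exact Set.disjoint_left.mp (h2 w w' hww) hy hz
  · intro w w' hww
    obtain ⟨a, ha, b, hb, hab⟩ := h3 w w' hww
    exact ⟨.inl ⟨a, hne w a ha⟩, ⟨_, ha, rfl⟩, .inl ⟨b, hne w' b hb⟩, ⟨_, hb, rfl⟩, hab⟩
  · rintro w ⟨y, -, hy⟩
    simp at hy

end

end Pool.Agent.MP_6bdc24_co
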